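import Pool.Agent.H34.SM.Defs
import Pool.Agent.H34.LS.V6
import Pool.Agent.H34.LS.V1
import Pool.Agent.H34.LS.W1

/-!
A: `psi w` (V6) is a subsolution for the symmetric walk with the long steps removed. `θ = π / (2 w)`. `|x| ≥ w`: `psi w x = 0` and the right side is nonnegative (compare DC/J1 `subsol`).
`|x| < w`: for `g` with `H * |g| ≤ w` we have `|hh g| ≤ w`, so `psi w (x + hh g) ≥ cos (θ (x + hh g)) = cos θx cos (θ hh g) - sin θx sin (θ hh g)` (`cos_le_psi`). Sum over these `g`: the `sin` terms cancel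
(substitution `g ↦ g⁻¹`: `P g⁻¹ = P g`, `hh g⁻¹ = - hh g` by `hhom`, `wordLength S g⁻¹ = wordLength S g` (`wl_inv`); `Finset.sum_bij` / `Finset.sum_equiv (Equiv.inv G)` on the support); `cos (θ hh g) ≥ 1 - θ^2 (hh g)^2 / 2`
(`Real.one_sub_sq_div_two_le_cos`), so the sum is at least `cos θx * (sum_{short g} P g - θ^2/2 * sum P g (hh g)^2) ≥ cos θx * (1 - H^2 M / w^2 - θ^2 H^2 M / 2)`: the mass of the long `g` (`w < H |g|`) is at most
`sum P g (H |g|)^2 / w^2 ≤ H^2 M / w^2`; `(hh g)^2 ≤ H^2 |g|^2`; `θ^2 / 2 = π^2 / (8 w^2) ≤ 2 / w^2`. `cos θx = psi w x ≥ 0`.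
-/

namespace Pool.Agent.H34.SM

open Pool.Agent.H34.LS Pool.Agent.H34.RP

universe u

variable {G : Type u} [Group G]

/-- pointwise lower bound for a single element. -/
private theorem a_point {H wl w : ℕ} (hw : 1 ≤ w) {x h : ℤ} (hx : |x| < (w : ℤ))
    (hh : |h| ≤ (H : ℤ) * (wl : ℤ)) {p : ℝ} (hp : 0 ≤ p) {θ c s : ℝ} (hθ : θ = Real.pi / (2 * w))
    (hc : c = Real.cos (θ * x)) (hs : s = Real.sin (θ * x)) (hc0 : 0 ≤ c) :
    c * (p - 3 * (H : ℝ) ^ 2 / (w : ℝ) ^ 2 * (p * (wl : ℝ) ^ 2)) -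
        s * (if H * wl ≤ w then p * Real.sin (θ * h) else 0) ≤
      if H * wl ≤ w then p * psi w (x + h) else 0 := by
  have hwr : (1 : ℝ) ≤ w := by exact_mod_cast hw
  have hw0 : (0 : ℝ) < w := by linarith
  have hpi := Real.pi_pos
  have hpi4 := Real.pi_le_four
  have hwl0 : (0 : ℝ) ≤ (wl : ℝ) ^ 2 := by positivity
  by_cases hsh : H * wl ≤ w
  · rw [if_pos hsh, if_pos hsh]
    have h1 : |x + h| ≤ 3 * (w : ℤ) := by
      have h2 := abs_add_le x h
      have h3 : (H : ℤ) * (wl : ℤ) ≤ (w : ℤ) := by exact_mod_cast hsh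
      linarith
    have h4 := cos_le_psi hw h1
    have h5 : Real.pi * ((x + h : ℤ) : ℝ) / (2 * w) = θ * x + θ * h := by
      rw [hθ]
      push_cast
      ring
    rw [h5, Real.cos_add, ← hc, ← hs] at h4
    have h6 := Real.one_sub_sq_div_two_le_cos (x := θ * h)
    have h7 : (θ * (h : ℝ)) ^ 2 / 2 ≤ 3 * (H : ℝ) ^ 2 / (w : ℝ) ^ 2 * (wl : ℝ) ^ 2 := by
      have h8 : (h : ℝ) ^ 2 ≤ ((H : ℝ) * wl) ^ 2 := by
        rw [← sq_abs]
        apply pow_le_pow_left₀ (abs_nonneg _)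
        exact_mod_cast hh
      have h9 : θ ^ 2 / 2 ≤ 3 / (w : ℝ) ^ 2 := by
        rw [hθ, div_pow, div_div, div_le_div_iff₀ (by positivity) (by positivity)]
        have h10 : Real.pi ^ 2 ≤ 16 := by nlinarith
        nlinarith [sq_nonneg (w : ℝ)]
      calc (θ * (h : ℝ)) ^ 2 / 2 = θ ^ 2 / 2 * (h : ℝ) ^ 2 := by ring
        _ ≤ 3 / (w : ℝ) ^ 2 * ((H : ℝ) * wl) ^ 2 :=
          mul_le_mul h9 h8 (sq_nonneg _) (by positivity)
        _ = _ := by ring
    have h11 : c * (1 - 3 * (H : ℝ) ^ 2 / (w : ℝ) ^ 2 * (wl : ℝ) ^ 2) ≤ c * Real.cos (θ * h) := by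
      apply mul_le_mul_of_nonneg_left _ hc0
      linarith
    have h12 : c * (1 - 3 * (H : ℝ) ^ 2 / (w : ℝ) ^ 2 * (wl : ℝ) ^ 2) - s * Real.sin (θ * h) ≤
        psi w (x + h) := by linarith
    have h13 := mul_le_mul_of_nonneg_left h12 hp
    refine le_trans (le_of_eq ?_) h13
    ring
  · rw [if_neg hsh, if_neg hsh, mul_zero, sub_zero]
    apply mul_nonpos_of_nonneg_of_nonpos hc0
    have h1 : (w : ℝ) ^ 2 ≤ (H : ℝ) ^ 2 * (wl : ℝ) ^ 2 := by
      rw [← mul_pow]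
      apply pow_le_pow_left₀ hw0.le
      have h2 : w ≤ H * wl := (not_le.mp hsh).le
      exact_mod_cast h2
    have h3 : 1 ≤ 3 * (H : ℝ) ^ 2 / (w : ℝ) ^ 2 * (wl : ℝ) ^ 2 := by
      rw [div_mul_eq_mul_div, le_div_iff₀ (by positivity)]
      nlinarith [sq_nonneg (w : ℝ)]
    have h4 := mul_le_mul_of_nonneg_left h3 hp
    linarith

theorem subsol_sym {P : G →₀ ℝ} (hP : Prb P) (hsym : ∀ g, P g⁻¹ = P g) {hh : G → ℤ}
    (hhom : ∀ x y, hh (x * y) = hh x + hh y) {S : Set G} (hS : Subgroup.closure S = ⊤) {H : ℕ}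
    (hH1 : 1 ≤ H) (hH : ∀ g, |hh g| ≤ (H : ℤ) * (wordLength S g : ℤ)) {M : ℝ}
    (hM : mom2 S P ≤ M) {w : ℕ} (hw : 1 ≤ w) (x : ℤ) :
    (1 - 3 * (H : ℝ) ^ 2 * M / (w : ℝ) ^ 2) * psi w x ≤
      P.sum (fun g a => if H * wordLength S g ≤ w then a * psi w (x + hh g) else 0) := by
  have hwr : (1 : ℝ) ≤ w := by exact_mod_cast hw
  have hw0 : (0 : ℝ) < w := by linarith
  have hpi := Real.pi_pos
  rcases le_or_gt (w : ℤ) |x| with hx | hx
  · rw [psi_zero hw hx, mul_zero]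
    refine Finset.sum_nonneg fun g _ => ?_
    show 0 ≤ if H * wordLength S g ≤ w then P g * psi w (x + hh g) else 0
    split_ifs
    · exact mul_nonneg (hP.nonneg g) (psi_nonneg _ _)
    · exact le_rfl
  · obtain ⟨θ, hθ⟩ : ∃ θ : ℝ, θ = Real.pi / (2 * w) := ⟨_, rfl⟩
    have hcx : psi w x = Real.cos (θ * x) := by
      rw [psi_eq_cos hx.le, hθ]
      congr 1
      ring
    obtain ⟨c, hc⟩ : ∃ c : ℝ, c = Real.cos (θ * x) := ⟨_, rfl⟩
    obtain ⟨s, hs⟩ : ∃ s : ℝ, s = Real.sin (θ * x) := ⟨_, rfl⟩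
    have hc0 : 0 ≤ c := by
      rw [hc, ← hcx]
      exact psi_nonneg w x
    -- the sine terms cancel
    have h1 : hh 1 = 0 := by
      have h := hhom 1 1
      rw [mul_one] at h
      omega
    have hinv : ∀ g, hh g⁻¹ = -hh g := by
      intro g
      have h := hhom g g⁻¹
      rw [mul_inv_cancel, h1] at h
      omega
    have hsin : ∑ g ∈ P.support,
        (if H * wordLength S g ≤ w then P g * Real.sin (θ * hh g) else 0) = 0 := by
      have h2 : ∑ g ∈ P.support,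
          (if H * wordLength S g ≤ w then P g * Real.sin (θ * hh g) else 0) =
          ∑ g ∈ P.support,
            -(if H * wordLength S g ≤ w then P g * Real.sin (θ * hh g) else 0) := by
        refine Finset.sum_equiv (Equiv.inv G) (fun g => ?_) (fun g _ => ?_)
        · rw [Finsupp.mem_support_iff, Finsupp.mem_support_iff, Equiv.inv_apply, hsym]
        · rw [Equiv.inv_apply, wl_inv hS, hsym, hinv]
          split_ifs
          · push_cast
            rw [mul_neg, Real.sin_neg, mul_neg, neg_neg]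
          · rw [neg_zero]
      rw [Finset.sum_neg_distrib] at h2
      linarith
    have htot : ∑ g ∈ P.support, P g = 1 := hP.total
    have hmom : ∑ g ∈ P.support, P g * (wordLength S g : ℝ) ^ 2 ≤ M := hM
    have hle : ∑ g ∈ P.support, (c * (P g - 3 * (H : ℝ) ^ 2 / (w : ℝ) ^ 2 *
          (P g * (wordLength S g : ℝ) ^ 2)) -
        s * (if H * wordLength S g ≤ w then P g * Real.sin (θ * hh g) else 0)) ≤
        P.sum (fun g a => if H * wordLength S g ≤ w then a * psi w (x + hh g) else 0) :=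
      Finset.sum_le_sum fun g _ => a_point hw hx (hH g) (hP.nonneg g) hθ hc hs hc0
    refine le_trans ?_ hle
    rw [Finset.sum_sub_distrib, ← Finset.mul_sum, ← Finset.mul_sum, Finset.sum_sub_distrib,
      ← Finset.mul_sum, hsin, mul_zero, sub_zero, htot, hcx, ← hc, mul_comm]
    apply mul_le_mul_of_nonneg_left _ hc0
    have h3 : 3 * (H : ℝ) ^ 2 / (w : ℝ) ^ 2 *
        ∑ g ∈ P.support, P g * (wordLength S g : ℝ) ^ 2 ≤ 3 * (H : ℝ) ^ 2 / (w : ℝ) ^ 2 * M :=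
      mul_le_mul_of_nonneg_left hmom (by positivity)
    have h4 : 3 * (H : ℝ) ^ 2 * M / (w : ℝ) ^ 2 = 3 * (H : ℝ) ^ 2 / (w : ℝ) ^ 2 * M := by ring
    linarith

end Pool.Agent.H34.SM
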