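import Pool.Agent.H34.SM.Defs
import Pool.Agent.H34.RP.D0
import Pool.Agent.H34.LS.V6

/-!
B: survival in `RchT`. Copy of DC/J2 (`one_mem_rch`, `j2_append`, `su_rch`): in the step only the letters `g` of the support with `H * wordLength S g ≤ w` are used, the others contribute `P g * su .. ≥ 0`
(on the right) and `0` (on the left).
-/

namespace Pool.Agent.H34.SM

open Pool.Agent.H34.LS Pool.Agent.H34.RP

universe u

variable {G : Type u} [Group G] {P : G →₀ ℝ} {hh : G → ℤ}

theorem one_mem_rchT (hhom : ∀ x y, hh (x * y) = hh x + hh y) (P : G →₀ ℝ) (S : Set G) (H w : ℕ) :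
    (1 : G) ∈ RchT P S H hh w := by
  have h1 : hh 1 = 0 := by
    have h2 := hhom 1 1
    rw [mul_one] at h2
    omega
  refine ⟨[], fun g hg => absurd hg List.not_mem_nil, List.prod_nil, fun k => ?_⟩
  rw [List.take_nil, List.prod_nil, h1, abs_zero]
  exact Int.natCast_nonneg w

private theorem b_append {S : Set G} {H w : ℕ} {x g : G} (hx : x ∈ RchT P S H hh w)
    (hg : P g ≠ 0) (hc : H * wordLength S g ≤ w) (hw : |hh (x * g)| ≤ (w : ℤ)) :
    x * g ∈ RchT P S H hh w := by
  obtain ⟨l, h1, h2, h3⟩ := hx
  refine ⟨l ++ [g], ?_, ?_, fun k => ?_⟩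
  · intro a ha
    rcases List.mem_append.1 ha with h | h
    · exact h1 a h
    · rw [List.mem_singleton.1 h]
      exact ⟨hg, hc⟩
  · rw [List.prod_append, h2, List.prod_singleton]
  · by_cases hk : k ≤ l.length
    · rw [List.take_append_of_le_length hk]
      exact h3 k
    · have hk' : (l ++ [g]).length ≤ k := by
        rw [List.length_append, List.length_singleton]
        omega
      rw [List.take_of_length_le hk', List.prod_append, h2, List.prod_singleton]
      exact hw

theorem su_rchT (hP : ∀ g, 0 ≤ P g) (hhom : ∀ x y, hh (x * y) = hh x + hh y) {S : Set G} {H w : ℕ}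
    (hw : 1 ≤ w) {l : ℝ} (hl : 0 ≤ l)
    (hsub : ∀ x : ℤ, l * psi w x ≤
      P.sum (fun g a => if H * wordLength S g ≤ w then a * psi w (x + hh g) else 0))
    {T : Finset G} (hT : (T : Set G) = RchT P S H hh w) (n : ℕ) {x : G} (hx : x ∈ T) :
    l ^ n * psi w (hh x) ≤ su P T n x := by
  induction n generalizing x with
  | zero =>
    rw [su, if_pos hx, pow_zero, one_mul]
    exact psi_le_one w _
  | succ n ih =>
    rw [su, if_pos hx]
    have h1 : l ^ (n + 1) * psi w (hh x) ≤
        l ^ n * P.sum (fun g a => if H * wordLength S g ≤ w then a * psi w (hh x + hh g) else 0) := by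
      rw [pow_succ, mul_assoc]
      exact mul_le_mul_of_nonneg_left (hsub (hh x)) (pow_nonneg hl n)
    refine le_trans h1 ?_
    rw [Finsupp.sum, Finset.mul_sum, Finsupp.sum]
    refine Finset.sum_le_sum fun g hg => ?_
    have hg' : P g ≠ 0 := Finsupp.mem_support_iff.1 hg
    by_cases hq : H * wordLength S g ≤ w
    · rw [if_pos hq]
      have h2 : l ^ n * (P g * psi w (hh x + hh g)) = P g * (l ^ n * psi w (hh x + hh g)) := by
        ring
      rw [h2]
      refine mul_le_mul_of_nonneg_left ?_ (hP g)
      rw [← hhom x g]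
      by_cases hc : |hh (x * g)| ≤ (w : ℤ)
      · have h3 : x * g ∈ T := by
          have hx' : x ∈ RchT P S H hh w := by
            rw [← hT]
            exact hx
          have h4 := b_append hx' hg' hq hc
          rw [← hT] at h4
          exact h4
        exact ih h3
      · rw [psi_zero hw (not_le.1 hc).le, mul_zero]
        exact su_nonneg hP T n _
    · rw [if_neg hq, mul_zero]
      exact mul_nonneg (hP g) (su_nonneg hP T n _)

end Pool.Agent.H34.SM
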