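import Pool.Agent.H34.SM.Z
import Pool.Agent.H34.MI.Fin

/-!
Fin: the lifting theorem with the statement on measures of finite second moment, the general
criterion, and the threshold.
-/

namespace Pool.Agent.H34.SM

open Pool.Agent.H34.LS Pool.Agent.H34.RP Pool.Agent.H34.MI Filter Topology

universe u

theorem lifting2 {G' : Type u} [Group G'] (hfg : Group.FG G') (hG' : LocFinByZ G') :
    ∃ (G : Type u) (_ : Group G) (theta : G →* G'), Group.FG G ∧ LocFinByZ G ∧
      LacunaryHyperbolic G ∧ Function.Surjective theta ∧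
      (∀ mu' : G' → ℝ, IsFSProb mu' → Generating mu' → Symm mu' →
        ∃ mu : G → ℝ, IsFSProb mu ∧ Generating mu ∧ Symm mu ∧ push theta mu = mu') ∧
      (∀ (f : G' →* Multiplicative ℤ) (S' : Set G'), S'.Finite → Subgroup.closure S' = ⊤ →
        (∀ n, (window f S' n).Finite) →
        Diverges (fun j => Real.log ((window f S' (2 ^ j)).ncard : ℝ) / 4 ^ j) →
        ∀ mu : G → ℝ, Sym2 mu → Liouville mu) := by
  obtain ⟨F, iF, S, K, pi, hSf, hS, hKn, hKm, hsep, hhyp, hpi, hker⟩ := tower_data G' hfg hG'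
  obtain ⟨M, hMn, hMK, hlac, hloc, hent⟩ := tower hSf hS hKn hKm hsep hhyp
  have hMker : M ≤ pi.ker := by rw [hker]; exact hMK
  let theta : F ⧸ M →* G' := QuotientGroup.lift M pi hMker
  have hth : Function.Surjective theta := by
    intro y
    obtain ⟨x, rfl⟩ := hpi y
    exact ⟨QuotientGroup.mk x, rfl⟩
  have hFG : Group.FG F := ⟨⟨hSf.toFinset, by simpa using hS⟩⟩
  have hG : Group.FG (F ⧸ M) :=
    Group.fg_of_surjective (f := QuotientGroup.mk' M) (QuotientGroup.mk'_surjective M)
  refine ⟨F ⧸ M, inferInstance, theta, hG, locFinByZ_quot hKm pi hpi hker M hMker hloc hG', hlac,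
    hth, ?_, ?_⟩
  · intro mu' h hg hs
    exact lift_measure hG theta hth h hg hs
  · intro f S' hSf' hS' hfin hdiv mu h
    refine liouville2 hSf hS (QuotientGroup.mk' M) (QuotientGroup.mk'_surjective M) theta ?_ f hSf'
      hS' hfin hdiv h
    intro e he L
    obtain ⟨U, l, hU, hUf, hL, hlog, hx⟩ := hent e he L
    refine ⟨U, l, hU, hUf, hL, hlog, ?_⟩
    intro x hxl hxU hx1
    have hxK : x ∈ ⨆ j, K j := by
      rw [← hker]
      exact hx1
    exact (QuotientGroup.eq_one_iff x).2 (hx x hxl hxU hxK)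

/-- the general criterion: small windows. -/
theorem liouville_of_windows {G : Type u} [Group G] (f : G →* Multiplicative ℤ) {S : Set G}
    (hSf : S.Finite) (hS : Subgroup.closure S = ⊤) (hfin : ∀ n, (window f S n).Finite)
    (hdiv : Diverges (fun j => Real.log ((window f S (2 ^ j)).ncard : ℝ) / 4 ^ j))
    {mu : G → ℝ} (h : Sym2 mu) : Liouville mu := by
  refine liouville2 hSf hS (MonoidHom.id G) Function.surjective_id (MonoidHom.id G) ?_ f hSf hS
    hfin hdiv h
  intro e he L
  refine ⟨⊤, L, inferInstance, inferInstance, le_rfl, ?_, fun x _ _ hx => hx⟩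
  rw [Subgroup.index_top]
  simp only [Nat.cast_one, Real.log_one]
  positivity

theorem sym2_of_fs {G : Type u} [Group G] (hfg : Group.FG G) {mu : G → ℝ} (h : IsFSProb mu)
    (hg : Generating mu) (hs : Symm mu) : Sym2 mu := by
  refine ⟨h.nonneg, ?_, hg, hs, ?_⟩
  · have h1 : HasSum mu (∑ g ∈ h.finite.toFinset, mu g) := by
      refine hasSum_sum_of_ne_finset_zero fun g hg0 => ?_
      rw [Set.Finite.mem_toFinset, Function.mem_support, not_not] at hg0
      exact hg0
    have h2 : ∑ g ∈ h.finite.toFinset, mu g = 1 := by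
      rw [← h.total, finsum_eq_sum_of_support_subset]
      rw [Set.Finite.coe_toFinset]
    rwa [h2] at h1
  · obtain ⟨A, hA, hAf⟩ := Group.fg_iff.1 hfg
    refine ⟨A, hAf, hA, ?_⟩
    refine summable_of_hasFiniteSupport (h.finite.subset fun g hg0 => ?_)
    rw [Function.mem_support] at hg0 ⊢
    exact left_ne_zero_of_mul hg0

theorem gg_diverges :
    Diverges (fun j => Real.log ((window hgt gS (2 ^ j)).ncard : ℝ) / 4 ^ j) := by
  refine diverge_of_frequently hgt gS window_finite (K := 18) (by norm_num) ?_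
  refine Eventually.frequently ?_
  filter_upwards [eventually_ge_atTop 1] with n hn
  exact window_log n hn

theorem moment_threshold :
    ∃ (G : Type) (_ : Group G), Group.FG G ∧ LocFinByZ G ∧ LacunaryHyperbolic G ∧
      (∃ mu : G → ℝ, IsFSProb mu ∧ Sym2 mu) ∧
      (∀ mu : G → ℝ, Sym2 mu → Liouville mu) ∧
      ∃ mu : G → ℝ, (∀ g, 0 ≤ mu g) ∧ HasSum mu 1 ∧ Generating mu ∧ Symm mu ∧
        (∀ S : Set G, S.Finite → Subgroup.closure S = ⊤ → ∀ p : ℝ, 0 ≤ p → p < 2 →
          Summable fun g => mu g * (wordLength S g : ℝ) ^ p) ∧ ¬ Liouville mu := by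
  obtain ⟨G, iG, theta, hfg, hloc, hlac, hsurj, hlift, hliou⟩ := lifting2 gg_fg gg_locFinByZ
  refine ⟨G, iG, hfg, hloc, hlac, ?_, ?_, ?_⟩
  · obtain ⟨mu, h1, h2, h3⟩ := exists_symm hfg
    exact ⟨mu, h1, sym2_of_fs hfg h1 h2 h3⟩
  · exact hliou hgt gS gS_finite gS_closure window_finite gg_diverges
  obtain ⟨nu', hnu, hgen, hsym, hpush⟩ := hlift nu nu_fs nu_gen nu_symm
  obtain ⟨t, ht⟩ := hsurj gT
  set i : ℕ → G := fun k => t ^ (2 ^ k) with hi
  set j : ℕ → G := fun k => (t ^ (2 ^ k))⁻¹ with hj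
  have hti : ∀ k, theta (i k) = gT ^ (2 ^ k) := fun k => by
    rw [hi]
    dsimp only
    rw [map_pow, ht]
  have hii : Function.Injective i := by
    intro k l hkl
    have h1 : Multiplicative.toAdd (hgt (theta (i k))) = Multiplicative.toAdd (hgt (theta (i l))) := by
      rw [hkl]
    rw [hti, hti, map_pow hgt, map_pow hgt, toAdd_pow, toAdd_pow, hgt_T] at h1
    simp only [nsmul_eq_mul, mul_one, Nat.cast_inj] at h1
    exact Nat.pow_right_injective le_rfl h1
  have hji : Function.Injective j := fun k l hkl => hii (inv_injective hkl)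
  set mu : G → ℝ := fun g => 1 / 2 * nu' g + 1 / 2 * (Function.extend i WW 0 g +
    Function.extend j WW 0 g) with hmu
  have hWn : ∀ k, 0 ≤ WW k := fun k => (WW_pos k).le
  have hint : ∀ (φ : G → ℝ) (a b c : ℝ), HasSum (fun g => nu' g * φ g) a →
      HasSum (fun k => WW k * φ (i k)) b → HasSum (fun k => WW k * φ (j k)) c →
      HasSum (fun g => mu g * φ g) (1 / 2 * a + 1 / 2 * (b + c)) := by
    intro φ a b c ha hb hc
    have h1 := (ha.mul_left (1 / 2)).add
      ((((ext_hasSum hii WW φ).2 hb).add ((ext_hasSum hji WW φ).2 hc)).mul_left (1 / 2))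
    refine h1.congr_fun fun g => ?_
    rw [hmu]
    ring
  have hnusum : HasSum (fun g => nu' g * 1) 1 := by
    have h1 : HasSum (fun y => push theta nu' y * 1) 1 := by
      rw [hpush]
      have h2 := nu_hasSum fun _ => 1
      norm_num at h2 ⊢
      exact h2
    exact push_hasSum theta hnu.finite (fun _ => 1) h1
  refine ⟨mu, fun g => ?_, ?_, ?_, ?_, ?_, ?_⟩
  · have h1 := hnu.nonneg g
    have h2 := ext_nonneg hii hWn g
    have h3 := ext_nonneg hji hWn g
    rw [hmu]
    dsimp only
    linarith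
  · have h1 := hint (fun _ => 1) 1 (1 / 2) (1 / 2) hnusum (by simpa using WW_hasSum)
      (by simpa using WW_hasSum)
    norm_num at h1
    exact h1
  · unfold Generating at hgen ⊢
    refine top_le_iff.1 ?_
    rw [← hgen]
    refine Submonoid.closure_mono fun g hg => ?_
    rw [Function.mem_support] at hg ⊢
    have h1 : 0 < nu' g := lt_of_le_of_ne (hnu.nonneg g) (Ne.symm hg)
    have h2 := ext_nonneg hii hWn g
    have h3 := ext_nonneg hji hWn g
    rw [hmu]
    dsimp only
    have : 0 < 1 / 2 * nu' g + 1 / 2 * (Function.extend i WW 0 g + Function.extend j WW 0 g) := by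
      linarith
    exact this.ne'
  · intro g
    rw [hmu]
    dsimp only
    rw [hsym g, ext_inv hii hji (fun _ => rfl) WW g,
      ext_inv hji hii (fun k => (inv_inv _).symm) WW g]
    ring
  · intro S hSf hS p hp0 hp
    have hs1 : Summable fun g => nu' g * (wordLength S g : ℝ) ^ p := by
      refine summable_of_hasFiniteSupport (hnu.finite.subset fun g hg => ?_)
      rw [Function.mem_support] at hg ⊢
      exact left_ne_zero_of_mul hg
    have hs2 : Summable fun k => WW k * (wordLength S (i k) : ℝ) ^ p :=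
      moment t hp0 hp fun k => wl_pow hS t (2 ^ k)
    have hs3 : Summable fun k => WW k * (wordLength S (j k) : ℝ) ^ p := by
      refine moment t hp0 hp fun k => ?_
      have h1 : wordLength S (j k) = wordLength S (i k) := wl_inv hS (i k)
      rw [h1]
      exact wl_pow hS t (2 ^ k)
    exact (hint (fun g => (wordLength S g : ℝ) ^ p) _ _ _ hs1.hasSum hs2.hasSum hs3.hasSum).summable
  · intro hL
    obtain ⟨w, hw1, hwne, hw⟩ := exists_ww
    have hne : ∃ x y : G, (fun g : G => w ((theta g : Equiv.Perm XX)⁻¹ x0)) x ≠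
        (fun g : G => w ((theta g : Equiv.Perm XX)⁻¹ x0)) y := by
      obtain ⟨b, hb⟩ := hsurj gB
      refine ⟨1, b, ?_⟩
      dsimp only
      rw [map_one, hb]
      have h1 : ((gB : Equiv.Perm XX))⁻¹ x0 = bX x0 := rfl
      rw [h1]
      exact hwne
    obtain ⟨x, y, hxy⟩ := hne
    refine hxy (hL (fun g => w ((theta g : Equiv.Perm XX)⁻¹ x0)) ⟨1, fun g => hw1 _⟩
      (fun g => ?_) x y)
    set q : XX := (theta g : Equiv.Perm XX)⁻¹ x0 with hq
    set φ : GG → ℝ := fun y => w ((y : Equiv.Perm XX)⁻¹ q) with hφ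
    have hmul : ∀ h, w ((theta (g * h) : Equiv.Perm XX)⁻¹ x0) = φ (theta h) := by
      intro h
      rw [hφ]
      dsimp only
      rw [map_mul, Subgroup.coe_mul, mul_inv_rev, Equiv.Perm.mul_apply, ← hq]
    have hTk : ∀ k : ℕ, ((gT ^ (2 ^ k) : GG) : Equiv.Perm XX) = tX (2 ^ k) := by
      intro k
      have h1 := tX_zpow ((2 ^ k : ℕ) : ℤ)
      rw [zpow_natCast] at h1
      rw [Subgroup.coe_pow]
      push_cast at h1
      exact h1
    have hφi : ∀ k, φ (theta (i k)) = w ((tX (2 ^ k)).symm q) := by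
      intro k
      rw [hti, hφ]
      dsimp only
      rw [hTk]
      rfl
    have hφj : ∀ k, φ (theta (j k)) = w (tX (2 ^ k) q) := by
      intro k
      have h1 : theta (j k) = (gT ^ (2 ^ k))⁻¹ := by
        rw [← hti, ← map_inv]
      rw [h1, hφ]
      dsimp only
      rw [Subgroup.coe_inv, inv_inv, hTk]
    have hbdd : ∀ v : ℕ → ℝ, (∀ k, |v k| ≤ 1) → Summable fun k => WW k * v k := by
      intro v hv
      refine Summable.of_norm_bounded WW_hasSum.summable fun k => ?_
      rw [norm_mul, Real.norm_eq_abs, Real.norm_eq_abs, abs_of_nonneg (hWn k)]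
      have := mul_le_mul_of_nonneg_left (hv k) (hWn k)
      rwa [mul_one] at this
    have hsi := (hbdd (fun k => w ((tX (2 ^ k)).symm q)) fun k => hw1 _).hasSum
    have hsj := (hbdd (fun k => w (tX (2 ^ k) q)) fun k => hw1 _).hasSum
    have hA := hint (fun h => φ (theta h)) _ _ _
      (push_hasSum theta hnu.finite φ (by rw [hpush]; exact nu_hasSum φ))
      (by simp only [hφi]; exact hsi) (by simp only [hφj]; exact hsj)
    have hB := hw q
    have hC : HasSum (fun k => WW k / 2 * (w (tX (2 ^ k) q) + w ((tX (2 ^ k)).symm q)))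
        (1 / 2 * ((∑' k, WW k * w ((tX (2 ^ k)).symm q)) + ∑' k, WW k * w (tX (2 ^ k) q))) := by
      refine ((hsi.add hsj).mul_left (1 / 2)).congr_fun fun k => ?_
      ring
    have hD := hB.unique hC
    have e1 : φ gA = w (aX q) := rfl
    have e2 : φ gB = w (bX q) := rfl
    have e3 : φ gT = w ((tX 1).symm q) := rfl
    have e4 : φ gT⁻¹ = w (tX 1 q) := rfl
    rw [← hD, e1, e2, e3, e4] at hA
    have hE : w q = 1 / 2 * (1 / 4 * (w (aX q) + w (bX q) + w ((tX 1).symm q) + w (tX 1 q))) +
        (w q - 1 / 8 * (w (aX q) + w (bX q) + w (tX 1 q) + w ((tX 1).symm q))) := by ring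
    simp only [hmul]
    rw [hE]
    exact hA

end Pool.Agent.H34.SM
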