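import Pool.Agent.H34.SM.Defs
import Pool.Agent.H34.LS.E1
import Pool.Agent.H34.LS.E5
import Pool.Agent.H34.LS.E6

/-!
R1: an almost harmonic function which varies gives an entropy increment. Copy of the first part of E7 (`liou_of_small`). `|avg (p^n) u x - u x| ≤ n ε` for all `x` (induction: `avg_mul`, `avg_bound` applied to the difference,
`avg` is linear). `avg (shl g (p^n)) u x = avg (p^n) u (x g)` is within `n ε` of `u (x g)`, `avg (p * p^n) u x` within `(n+1) ε` of `u x`. So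
`δ / 2 ≤ δ - (2n+1) ε ≤ C * nrm (shl g (p^n) - p * p^n)`, `nrm^2 ≤ 4 kl`, `p g * kl ≤` increment.
-/

namespace Pool.Agent.H34.SM

open Pool.Agent.H34.LS Pool.Agent.H34.RP

universe u

variable {G : Type u} [Group G]

private theorem r1_avg_sub (p : MonoidAlgebra ℝ G) (f f' : G → ℝ) (x : G) :
    avg p (fun y => f y - f' y) x = avg p f x - avg p f' x := by
  unfold avg Finsupp.sum
  rw [← Finset.sum_sub_distrib]
  exact Finset.sum_congr rfl fun g _ => mul_sub _ _ _

private theorem r1_near {p : MonoidAlgebra ℝ G} (hp : PA p) {u : G → ℝ} {ε : ℝ}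
    (hε : ∀ x, |avg p u x - u x| ≤ ε) (n : ℕ) :
    ∀ x, |avg (p ^ n) u x - u x| ≤ n * ε := by
  induction n with
  | zero =>
    intro x
    rw [pow_zero, avg_one, sub_self, abs_zero, Nat.cast_zero, zero_mul]
  | succ n ih =>
    intro x
    have h1 : |avg p (fun y => avg (p ^ n) u y - u y) x| ≤ n * ε := avg_bound hp ih x
    rw [r1_avg_sub] at h1
    have h2 : avg (p ^ (n + 1)) u x = avg p (avg (p ^ n) u) x := by rw [pow_succ', avg_mul]
    have h3 := hε x
    rw [h2, Nat.cast_succ]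
    have h4 : avg p (avg (p ^ n) u) x - u x =
        (avg p (fun y => avg (p ^ n) u y) x - avg p u x) + (avg p u x - u x) := by
      show avg p (avg (p ^ n) u) x - u x =
        (avg p (avg (p ^ n) u) x - avg p u x) + (avg p u x - u x)
      ring
    rw [h4]
    calc _ ≤ |avg p (fun y => avg (p ^ n) u y) x - avg p u x| + |avg p u x - u x| :=
          abs_add_le _ _
      _ ≤ n * ε + ε := add_le_add h1 h3
      _ = _ := by ring

theorem incr_ge {p : MonoidAlgebra ℝ G} (hp : PA p) {u : G → ℝ} {C ε δ : ℝ} (hC0 : 0 < C)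
    (hC : ∀ x, |u x| ≤ C) (hε : ∀ x, |avg p u x - u x| ≤ ε) {x g : G} (hδ0 : 0 ≤ δ)
    (hδ : δ ≤ |u (x * g) - u x|) (n : ℕ) (hn : (2 * n + 1) * ε ≤ δ / 2) :
    p.coeff g * δ ^ 2 ≤ 16 * C ^ 2 * (ent (p ^ (n + 1)) - ent (p ^ n)) := by
  have hq := pa_pow hp n
  have hpq : PA (p * p ^ n) := pa_mul hp hq
  have hs := pa_shl hq g
  have hterm : ∀ a ∈ p.coeff.support,
      0 ≤ p.coeff a * kl (shl a (p ^ n)).coeff (p * p ^ n).coeff := by
    intro a ha
    refine mul_nonneg (hp.1 a) ?_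
    have ha' : 0 < p.coeff a :=
      lt_of_le_of_ne (hp.1 a) (Ne.symm (Finsupp.mem_support_iff.1 ha))
    have hsa := pa_shl hq a
    exact kl_nonneg _ _ hsa.1 hpq.1 (hsa.2.trans hpq.2.symm)
      (fun y hy => shl_ac hp hq ha' y hy)
  have hent : ent (p ^ (n + 1)) - ent (p ^ n) =
      ∑ a ∈ p.coeff.support, p.coeff a * kl (shl a (p ^ n)).coeff (p * p ^ n).coeff := by
    rw [pow_succ', ent_step hp hq]
    rfl
  rcases eq_or_ne (p.coeff g) 0 with hg0 | hg0
  · rw [hg0, zero_mul, hent]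
    exact mul_nonneg (by positivity) (Finset.sum_nonneg hterm)
  have hg : 0 < p.coeff g := lt_of_le_of_ne (hp.1 g) (Ne.symm hg0)
  have h1 : |avg (shl g (p ^ n)) u x - u (x * g)| ≤ n * ε := by
    rw [avg_shl]
    exact r1_near hp hε n (x * g)
  have h2 : |avg (p * p ^ n) u x - u x| ≤ (n + 1) * ε := by
    have h := r1_near hp hε (n + 1) x
    rw [pow_succ', Nat.cast_succ] at h
    exact h
  have h3 : |avg (shl g (p ^ n)) u x - avg (p * p ^ n) u x| ≤
      C * nrm (shl g (p ^ n) - p * p ^ n) := avg_sub_le (shl g (p ^ n)) (p * p ^ n) hC x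
  have h4 : nrm (shl g (p ^ n) - p * p ^ n) ^ 2 ≤
      4 * kl (shl g (p ^ n)).coeff (p * p ^ n).coeff := by
    have := l1_sq_le_kl (shl g (p ^ n)).coeff (p * p ^ n).coeff hs.1 hpq.1 hs.2 hpq.2
      (fun y hy => shl_ac hp hq hg y hy)
    exact this
  have h5 : p.coeff g * kl (shl g (p ^ n)).coeff (p * p ^ n).coeff ≤
      ent (p ^ (n + 1)) - ent (p ^ n) := by
    rw [hent]
    exact Finset.single_le_sum
      (f := fun a => p.coeff a * kl (shl a (p ^ n)).coeff (p * p ^ n).coeff) hterm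
      (Finsupp.mem_support_iff.2 hg0)
  have h6 : δ ≤ (2 * n + 1) * ε + C * nrm (shl g (p ^ n) - p * p ^ n) := by
    have e1 : u (x * g) - u x = (avg (shl g (p ^ n)) u x - avg (p * p ^ n) u x) -
        (avg (shl g (p ^ n)) u x - u (x * g)) + (avg (p * p ^ n) u x - u x) := by ring
    have e2 : |u (x * g) - u x| ≤ |avg (shl g (p ^ n)) u x - avg (p * p ^ n) u x| +
        |avg (shl g (p ^ n)) u x - u (x * g)| + |avg (p * p ^ n) u x - u x| := by
      rw [e1]
      exact (abs_add_le _ _).trans (add_le_add (abs_sub _ _) le_rfl)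
    have e3 : (n : ℝ) * ε + (n + 1) * ε = (2 * n + 1) * ε := by ring
    linarith
  have h7 : δ / 2 ≤ C * nrm (shl g (p ^ n) - p * p ^ n) := by linarith
  have h8 : (δ / 2) ^ 2 ≤ C ^ 2 * nrm (shl g (p ^ n) - p * p ^ n) ^ 2 := by
    rw [← mul_pow]
    exact pow_le_pow_left₀ (by positivity) h7 2
  have h9 : δ ^ 2 ≤ 16 * C ^ 2 * kl (shl g (p ^ n)).coeff (p * p ^ n).coeff := by
    have e1 := mul_le_mul_of_nonneg_left h4 (sq_nonneg C)
    have e2 : (δ / 2) ^ 2 = δ ^ 2 / 4 := by ring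
    linarith
  calc p.coeff g * δ ^ 2
      ≤ p.coeff g * (16 * C ^ 2 * kl (shl g (p ^ n)).coeff (p * p ^ n).coeff) :=
        mul_le_mul_of_nonneg_left h9 hg.le
    _ = 16 * C ^ 2 * (p.coeff g * kl (shl g (p ^ n)).coeff (p * p ^ n).coeff) := by ring
    _ ≤ 16 * C ^ 2 * (ent (p ^ (n + 1)) - ent (p ^ n)) :=
        mul_le_mul_of_nonneg_left h5 (by positivity)

end Pool.Agent.H34.SM
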