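import Pool.Agent.H34.SM.Defs
import Pool.Agent.H34.LS.V13
import Pool.Agent.H34.LS.W1

/-!
C: `exists_H`: `S` finite, `H = 1 + sum_{s ∈ S} |toAdd (f s)|`; a geodesic word (`wl_exists`), induction on words. `rchT_sub`: each letter `g` of the word of an element of `RchT` has a geodesic word in `S` and inverses
(`wl_exists`), whose prefixes have length `≤ |g|` (`wl_le`), so height of modulus `≤ H |g| ≤ w`; the concatenation of these words has prefix heights of modulus `≤ w + w` (compare DC/J2a `rch_sub_a`, V13 `qk_support`).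
-/

namespace Pool.Agent.H34.SM

open Pool.Agent.H34.LS Pool.Agent.H34.RP

universe u

variable {G : Type u} [Group G]

private lemma smc_words (f : G →* Multiplicative ℤ) {S : Set G} (H : ℕ)
    (hH : ∀ x, (x ∈ S ∨ x⁻¹ ∈ S) → |Multiplicative.toAdd (f x)| ≤ (H : ℤ)) (l : List G) :
    (∀ x ∈ l, x ∈ S ∨ x⁻¹ ∈ S) →
      |Multiplicative.toAdd (f l.prod)| ≤ (H : ℤ) * (l.length : ℤ) := by
  induction l with
  | nil =>
    intro _
    simp
  | cons a l ih =>
    intro h
    have h1 := ih (fun x hx => h x (List.mem_cons_of_mem _ hx))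
    have h2 := hH a (h a List.mem_cons_self)
    rw [List.prod_cons, map_mul, toAdd_mul]
    refine (abs_add_le _ _).trans ?_
    rw [List.length_cons]
    push_cast
    linarith

theorem exists_H (f : G →* Multiplicative ℤ) {S : Set G} (hSf : S.Finite)
    (hS : Subgroup.closure S = ⊤) :
    ∃ H : ℕ, 1 ≤ H ∧ ∀ g, |Multiplicative.toAdd (f g)| ≤ (H : ℤ) * (wordLength S g : ℤ) := by
  have hle : ∀ s ∈ S, (Multiplicative.toAdd (f s)).natAbs ≤
      1 + ∑ s ∈ hSf.toFinset, (Multiplicative.toAdd (f s)).natAbs := by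
    intro s hs
    have h := Finset.single_le_sum (f := fun s => (Multiplicative.toAdd (f s)).natAbs)
      (fun i _ => Nat.zero_le _) (hSf.mem_toFinset.2 hs)
    exact h.trans (Nat.le_add_left _ _)
  refine ⟨1 + ∑ s ∈ hSf.toFinset, (Multiplicative.toAdd (f s)).natAbs, Nat.le_add_right _ _, ?_⟩
  intro g
  obtain ⟨l, hl, hs, hp⟩ := wl_exists hS g
  have h := smc_words f (S := S)
    (1 + ∑ s ∈ hSf.toFinset, (Multiplicative.toAdd (f s)).natAbs) (fun x hx => by
      rcases hx with hx | hx
      · have h1 := hle x hx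
        rw [Int.abs_eq_natAbs]
        exact_mod_cast h1
      · have h1 := hle x⁻¹ hx
        rw [map_inv, toAdd_inv, Int.natAbs_neg] at h1
        rw [Int.abs_eq_natAbs]
        exact_mod_cast h1) l hs
  rw [hp, hl] at h
  exact h

private lemma smc_main (f : G →* Multiplicative ℤ) {S : Set G} (hS : Subgroup.closure S = ⊤)
    {H : ℕ} (hH : ∀ g, |Multiplicative.toAdd (f g)| ≤ (H : ℤ) * (wordLength S g : ℤ)) (w : ℕ)
    (l : List G) :
    ∀ c : ℤ, (∀ g ∈ l, H * wordLength S g ≤ w) →
      (∀ k : ℕ, |c + Multiplicative.toAdd (f (l.take k).prod)| ≤ (w : ℤ)) →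
      ∃ l' : List G, (∀ x ∈ l', x ∈ S ∨ x⁻¹ ∈ S) ∧ l'.prod = l.prod ∧
        ∀ k : ℕ, |c + Multiplicative.toAdd (f (l'.take k).prod)| ≤ 2 * (w : ℤ) := by
  induction l with
  | nil =>
    intro c _ hk
    refine ⟨[], by simp, rfl, ?_⟩
    intro k
    have h := hk k
    have h0 : (0 : ℤ) ≤ (w : ℤ) := Int.natCast_nonneg w
    linarith
  | cons g l ih =>
    intro c hg hk
    have hk0 : |c| ≤ (w : ℤ) := by
      have h := hk 0
      simpa using h
    obtain ⟨lg, hlg, hsg, hpg⟩ := wl_exists hS g
    obtain ⟨l', hs', hp', hk'⟩ := ih (c + Multiplicative.toAdd (f g))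
      (fun x hx => hg x (List.mem_cons_of_mem _ hx)) (fun k => by
        have h := hk (k + 1)
        rw [List.take_succ_cons, List.prod_cons, map_mul, toAdd_mul, ← add_assoc] at h
        exact h)
    refine ⟨lg ++ l', ?_, ?_, ?_⟩
    · intro x hx
      rcases List.mem_append.1 hx with hx | hx
      · exact hsg x hx
      · exact hs' x hx
    · rw [List.prod_append, List.prod_cons, hpg, hp']
    · intro k
      rcases Nat.le_total k lg.length with hkl | hkl
      · rw [List.take_append_of_le_length hkl]
        have h1 : wordLength S (lg.take k).prod ≤ (lg.take k).length :=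
          wl_le (fun x hx => hsg x (List.mem_of_mem_take hx))
        have h2 : wordLength S (lg.take k).prod ≤ wordLength S g := by
          rw [← hlg]
          refine h1.trans ?_
          rw [List.length_take]
          exact Nat.min_le_right _ _
        have h3 : H * wordLength S (lg.take k).prod ≤ w :=
          (Nat.mul_le_mul_left H h2).trans (hg g List.mem_cons_self)
        have h4 : (H : ℤ) * (wordLength S (lg.take k).prod : ℤ) ≤ (w : ℤ) := by
          exact_mod_cast h3
        have h5 := (hH (lg.take k).prod).trans h4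
        have h6 := abs_add_le c (Multiplicative.toAdd (f (lg.take k).prod))
        linarith
      · have h1 : (lg ++ l').take k = lg ++ l'.take (k - lg.length) := by
          rw [List.take_append, List.take_of_length_le hkl]
        rw [h1, List.prod_append, hpg, map_mul, toAdd_mul, ← add_assoc]
        exact hk' _

theorem rchT_sub (f : G →* Multiplicative ℤ) {S : Set G} (hS : Subgroup.closure S = ⊤) {H : ℕ}
    (hH : ∀ g, |Multiplicative.toAdd (f g)| ≤ (H : ℤ) * (wordLength S g : ℤ)) (P : G →₀ ℝ)
    (w : ℕ) :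
    RchT P S H (fun g => Multiplicative.toAdd (f g)) w ⊆ window f S (2 * w) := by
  intro x hx
  obtain ⟨l, hl, hp, hk⟩ := hx
  obtain ⟨l', hs', hp', hk'⟩ := smc_main f hS hH w l 0 (fun g hg => (hl g hg).2) (fun k => by
    rw [zero_add]
    exact hk k)
  refine ⟨l', hs', hp'.trans hp, ?_⟩
  intro k
  have h := hk' k
  rw [zero_add] at h
  push_cast
  exact h

end Pool.Agent.H34.SM
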