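import Pool.Agent.H34.SM.Defs
import Pool.Agent.H34.LS.E2
import Pool.Agent.H34.LS.E5
import Pool.Agent.H34.LS.V2
import Pool.Agent.H34.RP.F0

/-!
N: dictionary between `P : G →₀ ℝ` and `MonoidAlgebra.ofCoeff P`: `pa_of`, `pw_coeff` (V2), `ent_mono` (E5), `fent_nonneg` (E2), `b_anti` (RP/F0).
-/

namespace Pool.Agent.H34.SM

open Pool.Agent.H34.LS Pool.Agent.H34.RP

universe u

variable {G : Type u} [Group G] {P : G →₀ ℝ}

theorem pa_of (hP : Prb P) : PA (MonoidAlgebra.ofCoeff P : MonoidAlgebra ℝ G) := by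
  refine ⟨fun g => ?_, ?_⟩
  · rw [MonoidAlgebra.coeff_ofCoeff]
    exact hP.nonneg g
  · rw [MonoidAlgebra.coeff_ofCoeff]
    exact hP.total

theorem prb_of_pa {p : MonoidAlgebra ℝ G} (hp : PA p) : Prb p.coeff := ⟨hp.1, hp.2⟩

private theorem n_ent (P : G →₀ ℝ) (n : ℕ) :
    ent ((MonoidAlgebra.ofCoeff P : MonoidAlgebra ℝ G) ^ n) = fent (pw P n) := by
  unfold ent
  rw [pw_coeff, MonoidAlgebra.coeff_ofCoeff]

theorem incr_anti (hP : Prb P) :
    Antitone (fun n : ℕ => fent (pw P (n + 1)) - fent (pw P n)) := by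
  refine antitone_nat_of_succ_le fun n => ?_
  have h := ent_mono (pa_of hP) n
  rw [n_ent, n_ent, n_ent] at h
  exact h

theorem fent_pw_nonneg (hP : Prb P) (n : ℕ) : 0 ≤ fent (pw P n) :=
  fent_nonneg (pw P n) (pw_nonneg hP.nonneg n) (tot_pw hP.total n)

theorem pw_one (P : G →₀ ℝ) : pw P 1 = P := by
  show bnd P (fun g => tl g (Finsupp.single (1 : G) (1 : ℝ))) = P
  have h : ∀ g : G, tl g (Finsupp.single (1 : G) (1 : ℝ)) = Finsupp.single g 1 := by
    intro g
    rw [tl_single, mul_one]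
  simp only [h, bnd]
  have h2 : ∀ (z : G) (a : ℝ), a • Finsupp.single z (1 : ℝ) = Finsupp.single z a := by
    intro z a
    rw [Finsupp.smul_single, smul_eq_mul, mul_one]
  simp only [h2]
  exact Finsupp.sum_single P

/-- linear entropy at one time gives linear entropy at all earlier times. -/
theorem lin_of (hP : Prb P) {e : ℝ} {n t : ℕ} (ht : t ≤ n) (hn : 1 ≤ n)
    (h : e * n ≤ fent (pw P n)) : e * t ≤ fent (pw P t) := by
  rcases Nat.eq_zero_or_pos t with rfl | ht0
  · simpa using fent_pw_nonneg hP 0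
  have h1 := b_anti (incr_anti hP) ht0 ht
  have hn' : (0 : ℝ) < n := by exact_mod_cast hn
  have ht' : (0 : ℝ) < t := by exact_mod_cast ht0
  have h2 : e ≤ fent (pw P n) / n := by
    rw [le_div_iff₀ hn']
    exact h
  exact (le_div_iff₀ ht').mp (h2.trans h1)

end Pool.Agent.H34.SM
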