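import Pool.Agent.H34.SM.Defs

/-!
D: entropy and second moment of the information, from the second moment of the length. `r = rwt S b`, `- log (r g) = log 2 + |g| log b`.
`logsq_le`: for `0 < a ≤ 1`, `0 < r`: `a (log a)^2 ≤ 4 a (log r)^2 + 8 r`: if `- log a ≤ - 2 log r` (both sides nonnegative when `r ≤ 1`) the first term suffices; otherwise `a < r^2`, and with `v = - log a ≥ 0`:
`a (log a)^2 = exp (-v) v^2 ≤ 8 exp (-v / 2) = 8 √a ≤ 8 r`, as `exp (v/2) ≥ (v/2)^2 / 2 = v^2 / 8` (`Real.quadratic_le_exp_of_nonneg`). Sum over the support, `sum r ≤ 1`,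
`(log r)^2 ≤ 2 (log 2)^2 + 2 |g|^2 (log b)^2`, `tot q = 1`, `8 (log 2)^2 + 8 ≤ 16`.
`gibbs`: `- s log s ≤ - s log r + (r - s)` for `s > 0` (`Real.log_le_sub_one_of_pos` at `r / s`), sum over the support; `log 2 * tot s + 1 ≤ 2`.
`fent_le`: `gibbs` and `|g| ≤ |g|^2`.
-/

namespace Pool.Agent.H34.SM

open Pool.Agent.H34.LS Pool.Agent.H34.RP

universe u

variable {G : Type u} [Group G]

private lemma d_rpos {S : Set G} {b : ℝ} (hb : 1 ≤ b) (g : G) : 0 < rwt S b g := by
  unfold rwt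
  positivity

private lemma d_rle {S : Set G} {b : ℝ} (hb : 1 ≤ b) (g : G) : rwt S b g ≤ 1 := by
  unfold rwt
  have h1 : (1 : ℝ) ≤ b ^ wordLength S g := one_le_pow₀ hb
  rw [div_le_one (by linarith)]
  linarith

private lemma d_log {S : Set G} {b : ℝ} (hb : 1 ≤ b) (g : G) :
    -Real.log (rwt S b g) = Real.log 2 + (wordLength S g : ℝ) * Real.log b := by
  unfold rwt
  have h1 : (0 : ℝ) < b ^ wordLength S g := by positivity
  rw [Real.log_div (by norm_num) h1.ne', Real.log_pow, one_div, Real.log_inv]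
  ring

private lemma d_log2 : 0 ≤ Real.log 2 ∧ Real.log 2 ≤ 1 := by
  have h1 := Real.log_two_lt_d9
  exact ⟨Real.log_nonneg (by norm_num), by linarith⟩

private lemma d_point {a r : ℝ} (ha : 0 < a) (ha1 : a ≤ 1) (hr : 0 < r) (hr1 : r ≤ 1) :
    a * Real.log a ^ 2 ≤ 4 * (a * Real.log r ^ 2) + 8 * r := by
  obtain ⟨v, hv⟩ : ∃ v, v = -Real.log a := ⟨_, rfl⟩
  obtain ⟨w, hw⟩ : ∃ w, w = -Real.log r := ⟨_, rfl⟩
  have hv0 : 0 ≤ v := by
    rw [hv]
    have := Real.log_nonpos ha.le ha1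
    linarith
  have hw0 : 0 ≤ w := by
    rw [hw]
    have := Real.log_nonpos hr.le hr1
    linarith
  have e1 : Real.log a ^ 2 = v ^ 2 := by rw [hv]; ring
  have e2 : Real.log r ^ 2 = w ^ 2 := by rw [hw]; ring
  rw [e1, e2]
  rcases le_or_gt v (2 * w) with h | h
  · have h1 : v ^ 2 ≤ (2 * w) ^ 2 := by gcongr
    have h2 : a * v ^ 2 ≤ a * (2 * w) ^ 2 := mul_le_mul_of_nonneg_left h1 ha.le
    have h3 : a * (2 * w) ^ 2 = 4 * (a * w ^ 2) := by ring
    linarith
  · have ha2 : a = Real.exp (-v) := by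
      rw [hv, neg_neg, Real.exp_log ha]
    have hr2 : r = Real.exp (-w) := by
      rw [hw, neg_neg, Real.exp_log hr]
    have h1 := Real.quadratic_le_exp_of_nonneg (x := v / 2) (by linarith)
    have h2 : v ^ 2 ≤ 8 * Real.exp (v / 2) := by nlinarith
    have h3 : Real.exp (-v) * v ^ 2 ≤ Real.exp (-v) * (8 * Real.exp (v / 2)) :=
      mul_le_mul_of_nonneg_left h2 (Real.exp_pos _).le
    have h4 : Real.exp (-v) * (8 * Real.exp (v / 2)) = 8 * Real.exp (-(v / 2)) := by
      have h5 : Real.exp (-v) * Real.exp (v / 2) = Real.exp (-(v / 2)) := by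
        rw [← Real.exp_add]
        congr 1
        ring
      calc Real.exp (-v) * (8 * Real.exp (v / 2)) = 8 * (Real.exp (-v) * Real.exp (v / 2)) := by ring
        _ = _ := by rw [h5]
    have h6 : Real.exp (-(v / 2)) ≤ Real.exp (-w) := by
      apply Real.exp_le_exp.2
      linarith
    have h7 : 0 ≤ 4 * (a * w ^ 2) := by positivity
    rw [← hr2] at h6
    rw [h4, ← ha2] at h3
    linarith

omit [Group G] in
private lemma d_le_one {q : G →₀ ℝ} (hq : Prb q) (g : G) : q g ≤ 1 := by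
  by_cases h : g ∈ q.support
  · have h1 : q g ≤ ∑ x ∈ q.support, q x :=
      Finset.single_le_sum (f := fun x => q x) (fun x _ => hq.nonneg x) h
    have h2 := hq.total
    unfold tot Finsupp.sum at h2
    rw [h2] at h1
    exact h1
  · rw [Finsupp.notMem_support_iff.1 h]
    norm_num

theorem logsq_le {S : Set G} {b : ℝ} (hb : 1 ≤ b) (hr : ∀ U : Finset G, ∑ g ∈ U, rwt S b g ≤ 1)
    {q : G →₀ ℝ} (hq : Prb q) :
    q.sum (fun _ a => a * Real.log a ^ 2) ≤ 8 * Real.log b ^ 2 * mom2 S q + 16 := by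
  have h1 : ∀ g ∈ q.support, q g * Real.log (q g) ^ 2 ≤
      (8 * Real.log b ^ 2) * (q g * (wordLength S g : ℝ) ^ 2) + 8 * q g + 8 * rwt S b g := by
    intro g hg
    have hg0 : 0 < q g := lt_of_le_of_ne (hq.nonneg g) (Ne.symm (Finsupp.mem_support_iff.1 hg))
    have h2 := d_point hg0 (d_le_one hq g) (d_rpos (S := S) hb g) (d_rle hb g)
    have h3 : Real.log (rwt S b g) ^ 2 ≤ 2 * 1 + 2 * ((wordLength S g : ℝ) ^ 2 * Real.log b ^ 2) := by
      have h4 := d_log (S := S) hb g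
      have h5 : Real.log (rwt S b g) ^ 2 = (Real.log 2 + (wordLength S g : ℝ) * Real.log b) ^ 2 := by
        rw [← h4]
        ring
      rw [h5]
      have h6 := d_log2
      have h7 : Real.log 2 ^ 2 ≤ 1 := by nlinarith
      nlinarith [sq_nonneg (Real.log 2 - (wordLength S g : ℝ) * Real.log b)]
    have h8 : 4 * (q g * Real.log (rwt S b g) ^ 2) ≤
        4 * (q g * (2 * 1 + 2 * ((wordLength S g : ℝ) ^ 2 * Real.log b ^ 2))) := by gcongr
    have h9 : 4 * (q g * (2 * 1 + 2 * ((wordLength S g : ℝ) ^ 2 * Real.log b ^ 2))) =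
        (8 * Real.log b ^ 2) * (q g * (wordLength S g : ℝ) ^ 2) + 8 * q g := by ring
    linarith
  have h2 := Finset.sum_le_sum h1
  rw [Finset.sum_add_distrib, Finset.sum_add_distrib, ← Finset.mul_sum, ← Finset.mul_sum,
    ← Finset.mul_sum] at h2
  have h3 := hr q.support
  have h4 := hq.total
  unfold tot Finsupp.sum at h4
  rw [h4] at h2
  unfold mom2 Finsupp.sum
  linarith

theorem gibbs {S : Set G} {b : ℝ} (hb : 1 ≤ b) (hr : ∀ U : Finset G, ∑ g ∈ U, rwt S b g ≤ 1)
    {s : G →₀ ℝ} (hs : ∀ g, 0 ≤ s g) (h1 : tot s ≤ 1) :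
    fent s ≤ Real.log b * s.sum (fun g a => a * (wordLength S g : ℝ)) + 2 := by
  have h2 : ∀ g ∈ s.support, Real.negMulLog (s g) ≤
      Real.log b * (s g * (wordLength S g : ℝ)) + Real.log 2 * s g + rwt S b g := by
    intro g hg
    have hg0 : 0 < s g := lt_of_le_of_ne (hs g) (Ne.symm (Finsupp.mem_support_iff.1 hg))
    have hr0 := d_rpos (S := S) hb g
    have h3 := Real.log_le_sub_one_of_pos (div_pos hr0 hg0)
    rw [Real.log_div hr0.ne' hg0.ne'] at h3
    have h4 : s g * (Real.log (rwt S b g) - Real.log (s g)) ≤ s g * (rwt S b g / s g - 1) :=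
      mul_le_mul_of_nonneg_left h3 hg0.le
    have h5 : s g * (rwt S b g / s g - 1) = rwt S b g - s g := by
      field_simp
    rw [h5] at h4
    have h6 := d_log (S := S) hb g
    have h7 : s g * Real.log (rwt S b g) =
        -(s g * (Real.log 2 + (wordLength S g : ℝ) * Real.log b)) := by
      rw [← h6]
      ring
    rw [Real.negMulLog]
    nlinarith
  have h3 := Finset.sum_le_sum h2
  rw [Finset.sum_add_distrib, Finset.sum_add_distrib, ← Finset.mul_sum, ← Finset.mul_sum] at h3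
  have h4 := hr s.support
  unfold tot Finsupp.sum at h1
  have h5 : 0 ≤ ∑ g ∈ s.support, s g := Finset.sum_nonneg fun g _ => hs g
  have h6 := d_log2
  have h7 : Real.log 2 * ∑ g ∈ s.support, s g ≤ 1 * 1 := mul_le_mul h6.2 h1 h5 (by norm_num)
  unfold fent Finsupp.sum
  linarith

theorem fent_le {S : Set G} {b : ℝ} (hb : 1 ≤ b) (hr : ∀ U : Finset G, ∑ g ∈ U, rwt S b g ≤ 1)
    {q : G →₀ ℝ} (hq : Prb q) : fent q ≤ Real.log b * mom2 S q + 2 := by
  have h1 := gibbs hb hr hq.nonneg hq.total.le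
  have h2 : q.sum (fun g a => a * (wordLength S g : ℝ)) ≤ mom2 S q := by
    unfold mom2 Finsupp.sum
    refine Finset.sum_le_sum fun g _ => mul_le_mul_of_nonneg_left ?_ (hq.nonneg g)
    have h3 : wordLength S g ≤ wordLength S g ^ 2 := Nat.le_self_pow (by norm_num) _
    exact_mod_cast h3
  have h3 : Real.log b * q.sum (fun g a => a * (wordLength S g : ℝ)) ≤ Real.log b * mom2 S q :=
    mul_le_mul_of_nonneg_left h2 (Real.log_nonneg hb)
  linarith

end Pool.Agent.H34.SM
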