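import Pool.Agent.H34.SM.Defs
import Pool.Agent.H34.LS.V1
import Pool.Agent.H34.LS.V2
import Pool.Agent.H34.LS.W1

/-!
E: second moment of the convolution powers. Induction on `t`; `t = 0`: `pw P 0 = single 1 1`, `wl_one`. Step: `pw P (t+1) = bnd P (fun g => tl g (pw P t))`, so (as in `tot_bnd`, V1)
`mom2 (pw P (t+1)) = sum_g P g * sum_x pw P t x * |g x|^2`, `|g x| ≤ |g| + |x|` (`wl_mul`), and for `t ≥ 1`: `(|g| + |x|)^2 ≤ (1 + t) |g|^2 + (1 + 1/t) |x|^2`; hence
`≤ (1 + t) m1 + (1 + 1/t) t^2 m1 = (t+1)^2 m1`. `t = 0`: `|g * 1|^2`.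
-/

namespace Pool.Agent.H34.SM

open Pool.Agent.H34.LS Pool.Agent.H34.RP

universe u

variable {G : Type u} [Group G]

/-- the second moment of the next power. -/
private theorem e_mom2_succ (S : Set G) (P : G →₀ ℝ) (t : ℕ) :
    mom2 S (pw P (t + 1)) =
      P.sum (fun g a => a * (pw P t).sum (fun x b => b * (wordLength S (g * x) : ℝ) ^ 2)) := by
  unfold mom2
  show (bnd P (fun g => tl g (pw P t))).sum (fun y b => b * (wordLength S y : ℝ) ^ 2) = _
  rw [sum_bnd P (fun g => tl g (pw P t)) (fun y => (wordLength S y : ℝ) ^ 2)]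
  apply Finsupp.sum_congr
  intro g _
  rw [sum_tl g (pw P t) (fun y => (wordLength S y : ℝ) ^ 2)]

theorem mom2_pw {S : Set G} (hS : Subgroup.closure S = ⊤) {P : G →₀ ℝ} (hP : Prb P) (t : ℕ) :
    mom2 S (pw P t) ≤ (t : ℝ) ^ 2 * mom2 S P := by
  induction t with
  | zero =>
    have h1 : mom2 S (pw P 0) = 0 := by
      unfold mom2
      show (Finsupp.single (1 : G) (1 : ℝ)).sum (fun g a => a * (wordLength S g : ℝ) ^ 2) = 0
      rw [Finsupp.sum_single_index (zero_mul _), wl_one]
      simp
    rw [h1]
    simp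
  | succ t ih =>
    rw [e_mom2_succ]
    rcases Nat.eq_zero_or_pos t with h0 | h0
    · subst h0
      have h2 : P.sum (fun g a => a * (pw P 0).sum (fun x b => b * (wordLength S (g * x) : ℝ) ^ 2)) =
          mom2 S P := by
        unfold mom2
        apply Finsupp.sum_congr
        intro g _
        show P g * (Finsupp.single (1 : G) (1 : ℝ)).sum (fun x b => b * (wordLength S (g * x) : ℝ) ^ 2) = _
        rw [Finsupp.sum_single_index (zero_mul _), mul_one, one_mul]
      rw [h2]
      simp
    · have ht : (0 : ℝ) < t := by exact_mod_cast h0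
      have htot : (pw P t).sum (fun _ b => b) = 1 := tot_pw hP.total t
      have hin : ∀ g : G, (pw P t).sum (fun x b => b * (wordLength S (g * x) : ℝ) ^ 2) ≤
          (1 + t) * (wordLength S g : ℝ) ^ 2 + (1 + 1 / t) * mom2 S (pw P t) := by
        intro g
        have h3 : (1 + (t : ℝ)) * (wordLength S g : ℝ) ^ 2 =
            (pw P t).sum (fun _ b => b * ((1 + (t : ℝ)) * (wordLength S g : ℝ) ^ 2)) := by
          rw [← Finsupp.sum_mul, htot, one_mul]
        have h4 : (1 + 1 / (t : ℝ)) * mom2 S (pw P t) =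
            (pw P t).sum (fun x b => b * ((1 + 1 / (t : ℝ)) * (wordLength S x : ℝ) ^ 2)) := by
          unfold mom2
          rw [Finsupp.mul_sum]
          apply Finsupp.sum_congr
          intro x _
          ring
        rw [h3, h4, ← Finsupp.sum_add]
        apply Finset.sum_le_sum
        intro x _
        dsimp only
        rw [← mul_add]
        apply mul_le_mul_of_nonneg_left _ (pw_nonneg hP.nonneg t x)
        have h5 : (wordLength S (g * x) : ℝ) ≤ wordLength S g + wordLength S x := by
          exact_mod_cast wl_mul hS g x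
        have h6 : (wordLength S (g * x) : ℝ) ^ 2 ≤ ((wordLength S g : ℝ) + wordLength S x) ^ 2 :=
          pow_le_pow_left₀ (Nat.cast_nonneg _) h5 2
        refine h6.trans ?_
        have h7 : (1 + (t : ℝ)) * (wordLength S g : ℝ) ^ 2 + (1 + 1 / (t : ℝ)) * (wordLength S x : ℝ) ^ 2 -
            ((wordLength S g : ℝ) + wordLength S x) ^ 2 =
            ((t : ℝ) * wordLength S g - wordLength S x) ^ 2 / t := by
          field_simp
          ring
        have h8 : 0 ≤ ((t : ℝ) * wordLength S g - wordLength S x) ^ 2 / t := by positivity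
        linarith
      have hsum : P.sum (fun g a => a * (pw P t).sum (fun x b => b * (wordLength S (g * x) : ℝ) ^ 2)) ≤
          P.sum (fun g a => a * ((1 + t) * (wordLength S g : ℝ) ^ 2 + (1 + 1 / t) * mom2 S (pw P t))) := by
        apply Finset.sum_le_sum
        intro g _
        exact mul_le_mul_of_nonneg_left (hin g) (hP.nonneg g)
      have heq : P.sum (fun g a => a * ((1 + t) * (wordLength S g : ℝ) ^ 2 + (1 + 1 / t) * mom2 S (pw P t))) =
          (1 + t) * mom2 S P + (1 + 1 / t) * mom2 S (pw P t) := by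
        have h9 : (1 + 1 / (t : ℝ)) * mom2 S (pw P t) = P.sum (fun _ a => a * ((1 + 1 / (t : ℝ)) * mom2 S (pw P t))) := by
          have h10 : P.sum (fun _ b => b) = 1 := hP.total
          rw [← Finsupp.sum_mul, h10, one_mul]
        have h11 : (1 + (t : ℝ)) * mom2 S P = P.sum (fun g a => a * ((1 + t) * (wordLength S g : ℝ) ^ 2)) := by
          conv_lhs => unfold mom2
          rw [Finsupp.mul_sum]
          apply Finsupp.sum_congr
          intro x _
          ring
        conv_rhs => rw [h9, h11]
        rw [← Finsupp.sum_add]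
        apply Finsupp.sum_congr
        intro g _
        ring
      rw [heq] at hsum
      refine hsum.trans ?_
      have h12 : (1 + 1 / (t : ℝ)) * mom2 S (pw P t) ≤ (1 + 1 / (t : ℝ)) * ((t : ℝ) ^ 2 * mom2 S P) :=
        mul_le_mul_of_nonneg_left ih (by positivity)
      have h13 : (1 + 1 / (t : ℝ)) * ((t : ℝ) ^ 2 * mom2 S P) = ((t : ℝ) ^ 2 + t) * mom2 S P := by
        field_simp
      push_cast
      have h14 : ((t : ℝ) + 1) ^ 2 * mom2 S P = (1 + t) * mom2 S P + ((t : ℝ) ^ 2 + t) * mom2 S P := by ring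
      rw [h14]
      linarith

end Pool.Agent.H34.SM
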