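import Mathlib

/-!
T: finite telescoping with uniform constants. Copy of V19 (`telescoping` and its private lemmas): the proof there gives, for every `j` with `j0 ≤ j ≤ J`,
`exp (-((C + 1) K j)) ≤ C1 / c' * ((B j + E B j) - (B (j+1) + E B (j+1)))`, and the sum over `Finset.Icc j0 J` telescopes to at most `C1 / c' * (B j0 + E B j0) ≤ C1 / c' * 2 * A 0`
(`B j0 ≤ A 0`, `E B j0 ≤ A 0`: weights `1/2/2^n` with sum `1`, `B ≤ A 0`). `D = 2 * C1 / c'` depends only on `c, C, c'`.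
-/

namespace Pool.Agent.H34.SM

private theorem t_gap {c C : ℝ} (hc : 0 < c) (hC : 0 < C) : ∃ C1 : ℝ, 0 < C1 ∧
    ∀ κ : ℝ, 0 ≤ κ → ∃ g : ℕ, C * (κ + 1) + 1 ≤ c * 4 ^ (g + 1) ∧
      (2 : ℝ) ^ (g + 1) ≤ C1 * Real.exp κ := by
  refine ⟨2 + 4 * (C + 1) / c, by positivity, ?_⟩
  intro κ hκ
  have hex : ∃ n : ℕ, C * (κ + 1) + 1 ≤ c * 4 ^ n := by
    obtain ⟨n, hn⟩ := pow_unbounded_of_one_lt ((C * (κ + 1) + 1) / c) (by norm_num : (1 : ℝ) < 4)
    refine ⟨n, ?_⟩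
    rw [div_lt_iff₀ hc] at hn
    linarith
  classical
  obtain ⟨n, hn, hmin⟩ : ∃ n : ℕ, C * (κ + 1) + 1 ≤ c * 4 ^ n ∧
      ∀ m < n, ¬ C * (κ + 1) + 1 ≤ c * 4 ^ m :=
    ⟨Nat.find hex, Nat.find_spec hex, fun m hm => Nat.find_min hex hm⟩
  have hexp1 : κ + 1 ≤ Real.exp κ := Real.add_one_le_exp κ
  have hexp2 : 1 ≤ Real.exp κ := by linarith
  refine ⟨n, ?_, ?_⟩
  · refine hn.trans ?_
    apply mul_le_mul_of_nonneg_left _ hc.le
    exact pow_le_pow_right₀ (by norm_num) (Nat.le_succ n)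
  · rcases n with _ | m
    · have h1 : 0 ≤ 4 * (C + 1) / c := by positivity
      have h2 : 0 ≤ 4 * (C + 1) / c * Real.exp κ := by positivity
      rw [zero_add, pow_one, add_mul]
      linarith
    · have hm := hmin m (Nat.lt_succ_self m)
      rw [not_le] at hm
      have h24 : (2 : ℝ) ^ m ≤ 4 ^ m := pow_le_pow_left₀ (by norm_num) (by norm_num) m
      have h3 : C * (κ + 1) + 1 ≤ (C + 1) * Real.exp κ := by
        have := mul_le_mul_of_nonneg_left hexp1 hC.le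
        linarith
      have h4 : (4 : ℝ) ^ m ≤ (C + 1) * Real.exp κ / c := by
        rw [le_div_iff₀ hc]
        linarith
      have h5 : (2 : ℝ) ^ (m + 1 + 1) = 4 * 2 ^ m := by ring
      rw [h5]
      have h6 : (2 + 4 * (C + 1) / c) * Real.exp κ
          = 2 * Real.exp κ + 4 * ((C + 1) * Real.exp κ / c) := by ring
      rw [h6]
      linarith

/-- the weighted average of the later values -/
private noncomputable def t_E (B : ℕ → ℝ) (j : ℕ) : ℝ :=
  ∑' n : ℕ, (1 : ℝ) / 2 / 2 ^ n * B (j + 1 + n)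

private theorem t_summable {B : ℕ → ℝ} (hB : Antitone B) (h0 : ∀ j, 0 ≤ B j) (j : ℕ) :
    Summable (fun n : ℕ => (1 : ℝ) / 2 / 2 ^ n * B (j + 1 + n)) := by
  apply Summable.of_nonneg_of_le (f := fun n : ℕ => (1 : ℝ) / 2 / 2 ^ n * B 0)
  · intro n
    exact mul_nonneg (by positivity) (h0 _)
  · intro n
    exact mul_le_mul_of_nonneg_left (hB (Nat.zero_le _)) (by positivity)
  · exact (hasSum_geometric_two' 1).summable.mul_right _

private theorem t_rec {B : ℕ → ℝ} (hB : Antitone B) (h0 : ∀ j, 0 ≤ B j) (j : ℕ) :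
    2 * t_E B j = B (j + 1) + t_E B (j + 1) := by
  unfold t_E
  rw [(t_summable hB h0 j).tsum_eq_zero_add]
  have h1 : ∀ n : ℕ, (1 : ℝ) / 2 / 2 ^ (n + 1) * B (j + 1 + (n + 1))
      = (1 / 2) * ((1 : ℝ) / 2 / 2 ^ n * B (j + 1 + 1 + n)) := by
    intro n
    have e : j + 1 + (n + 1) = j + 1 + 1 + n := by ring
    rw [e, pow_succ]
    ring
  rw [tsum_congr h1, tsum_mul_left]
  simp only [pow_zero, div_one, add_zero]
  ring

private theorem t_term {B : ℕ → ℝ} (hB : Antitone B) (h0 : ∀ j, 0 ≤ B j) (j g : ℕ) :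
    (1 / 2 : ℝ) ^ (g + 1) * (B j - B (j + (g + 1))) ≤ B j - t_E B j := by
  have h1 : HasSum (fun n : ℕ => (1 : ℝ) / 2 / 2 ^ n * B j) (B j) := by
    have := (hasSum_geometric_two' (1 : ℝ)).mul_right (B j)
    rwa [one_mul] at this
  have h2 := h1.sub (t_summable hB h0 j).hasSum
  have h3 := le_hasSum h2 g (by
    intro n _
    rw [← mul_sub]
    apply mul_nonneg (by positivity)
    have : B (j + 1 + n) ≤ B j := hB (by omega)
    linarith)
  have e : j + (g + 1) = j + 1 + g := by ring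
  rw [e]
  refine le_trans (le_of_eq ?_) h3
  rw [← mul_sub, pow_succ, one_div_pow]
  ring

private theorem t_E_nonneg {B : ℕ → ℝ} (h0 : ∀ j, 0 ≤ B j) (j : ℕ) : 0 ≤ t_E B j := by
  unfold t_E
  exact tsum_nonneg (fun n => mul_nonneg (by positivity) (h0 _))

private theorem t_E_le {B : ℕ → ℝ} (hB : Antitone B) (h0 : ∀ j, 0 ≤ B j) (j : ℕ) :
    t_E B j ≤ B 0 := by
  have h1 : HasSum (fun n : ℕ => (1 : ℝ) / 2 / 2 ^ n * B 0) (B 0) := by
    have := (hasSum_geometric_two' (1 : ℝ)).mul_right (B 0)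
    rwa [one_mul] at this
  refine hasSum_le (fun n => ?_) (t_summable hB h0 j).hasSum h1
  exact mul_le_mul_of_nonneg_left (hB (Nat.zero_le _)) (by positivity)

private theorem t_tel (f S : ℕ → ℝ) (j0 n : ℕ)
    (h : ∀ i < n, f (j0 + i) ≤ S (j0 + i) - S (j0 + i + 1)) :
    ∑ i ∈ Finset.range n, f (j0 + i) ≤ S j0 - S (j0 + n) := by
  induction n with
  | zero => simp
  | succ n ih =>
    rw [Finset.sum_range_succ]
    have h1 := ih fun i hi => h i (Nat.lt_succ_of_lt hi)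
    have h2 := h n (Nat.lt_succ_self n)
    have e : j0 + (n + 1) = j0 + n + 1 := by ring
    rw [e]
    linarith

theorem telescoping_fin {c C c' : ℝ} (hc : 0 < c) (hC : 0 < C) (hc' : 0 < c') :
    ∃ D : ℝ, 0 < D ∧ ∀ A : ℕ → ℝ, Antitone A → (∀ j, 0 ≤ A j) → ∀ K : ℕ → ℝ, (∀ j, 0 ≤ K j) →
      ∀ j0 J : ℕ, (∀ j, j0 ≤ j → j ≤ J → ∀ t M : ℕ, (t : ℝ) ≤ c * 4 ^ j →
        C * (4 ^ j * (K j + 1)) ≤ M → A M ≤ A t - c' * Real.exp (-(C * K j))) →
      ∑ j ∈ Finset.Icc j0 J, Real.exp (-((C + 1) * K j)) ≤ D * A 0 := by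
  obtain ⟨C1, hC1, hgap⟩ := t_gap hc hC
  refine ⟨2 * C1 / c', by positivity, ?_⟩
  intro A hA h0 K hK j0 J H
  obtain ⟨B, hBdef⟩ : ∃ B : ℕ → ℝ, ∀ i, B i = A ⌊c * 4 ^ i⌋₊ := ⟨_, fun _ => rfl⟩
  have hB : Antitone B := by
    intro i j hij
    rw [hBdef, hBdef]
    apply hA
    apply Nat.floor_mono
    apply mul_le_mul_of_nonneg_left _ hc.le
    exact pow_le_pow_right₀ (by norm_num) hij
  have hB0 : ∀ j, 0 ≤ B j := fun j => by
    rw [hBdef]
    exact h0 _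
  have hBA : ∀ j, B j ≤ A 0 := fun j => by
    rw [hBdef]
    exact hA (Nat.zero_le _)
  have key : ∀ j, j0 ≤ j → j ≤ J → Real.exp (-((C + 1) * K j))
      ≤ C1 / c' * (B j + t_E B j) - C1 / c' * (B (j + 1) + t_E B (j + 1)) := by
    intro j hj hjJ
    obtain ⟨g, hg1, hg2⟩ := hgap (K j) (hK j)
    have hM : C * (4 ^ j * (K j + 1)) ≤ ((⌊c * 4 ^ (j + (g + 1))⌋₊ : ℕ) : ℝ) := by
      have hfl : c * 4 ^ (j + (g + 1)) < ((⌊c * 4 ^ (j + (g + 1))⌋₊ : ℕ) : ℝ) + 1 :=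
        Nat.lt_floor_add_one _
      have h4 : (1 : ℝ) ≤ 4 ^ j := one_le_pow₀ (by norm_num)
      have e : c * 4 ^ (j + (g + 1)) = 4 ^ j * (c * 4 ^ (g + 1)) := by
        rw [pow_add]
        ring
      have h5 : 4 ^ j * (C * (K j + 1) + 1) ≤ 4 ^ j * (c * 4 ^ (g + 1)) :=
        mul_le_mul_of_nonneg_left hg1 (by positivity)
      rw [← e] at h5
      have e2 : C * (4 ^ j * (K j + 1)) = 4 ^ j * (C * (K j + 1) + 1) - 4 ^ j := by ring
      rw [e2]
      linarith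
    have ht : ((⌊c * 4 ^ j⌋₊ : ℕ) : ℝ) ≤ c * 4 ^ j := Nat.floor_le (by positivity)
    have hH := H j hj hjJ _ _ ht hM
    rw [← hBdef, ← hBdef] at hH
    have hterm := t_term hB hB0 j g
    have hrec := t_rec hB hB0 j
    have hle : (1 / 2 : ℝ) ^ (g + 1) * (c' * Real.exp (-(C * K j)))
        ≤ (B j + t_E B j) - (B (j + 1) + t_E B (j + 1)) := by
      have h6 : (1 / 2 : ℝ) ^ (g + 1) * (c' * Real.exp (-(C * K j)))
          ≤ (1 / 2 : ℝ) ^ (g + 1) * (B j - B (j + (g + 1))) := by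
        apply mul_le_mul_of_nonneg_left _ (by positivity)
        linarith
      linarith
    have hexp : Real.exp (-((C + 1) * K j)) = Real.exp (-(C * K j)) * (Real.exp (K j))⁻¹ := by
      rw [← Real.exp_neg, ← Real.exp_add]
      congr 1
      ring
    have h7 : (Real.exp (K j))⁻¹ ≤ C1 * (1 / 2 : ℝ) ^ (g + 1) := by
      rw [one_div_pow, mul_one_div, le_div_iff₀ (by positivity),
        inv_mul_le_iff₀ (Real.exp_pos _)]
      linarith
    rw [hexp, ← mul_sub]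
    calc Real.exp (-(C * K j)) * (Real.exp (K j))⁻¹
        ≤ Real.exp (-(C * K j)) * (C1 * (1 / 2 : ℝ) ^ (g + 1)) :=
          mul_le_mul_of_nonneg_left h7 (Real.exp_pos _).le
      _ = C1 / c' * ((1 / 2 : ℝ) ^ (g + 1) * (c' * Real.exp (-(C * K j)))) := by
          field_simp
      _ ≤ C1 / c' * ((B j + t_E B j) - (B (j + 1) + t_E B (j + 1))) :=
          mul_le_mul_of_nonneg_left hle (by positivity)
  have hD : 0 ≤ 2 * C1 / c' * A 0 := mul_nonneg (by positivity) (h0 0)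
  rcases lt_or_ge J j0 with hJ | hJ
  · rw [Finset.Icc_eq_empty (by omega), Finset.sum_empty]
    exact hD
  · have hI : Finset.Icc j0 J = Finset.Ico j0 (J + 1) := by
      ext x
      rw [Finset.mem_Icc, Finset.mem_Ico, Nat.lt_succ_iff]
    rw [hI, Finset.sum_Ico_eq_sum_range]
    have h8 := t_tel (fun j => Real.exp (-((C + 1) * K j)))
      (fun j => C1 / c' * (B j + t_E B j)) j0 (J + 1 - j0)
      (fun i hi => key (j0 + i) (Nat.le_add_right _ _) (by omega))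
    refine h8.trans ?_
    have h9 : 0 ≤ C1 / c' * (B (j0 + (J + 1 - j0)) + t_E B (j0 + (J + 1 - j0))) :=
      mul_nonneg (by positivity) (add_nonneg (hB0 _) (t_E_nonneg hB0 _))
    have h10 : B j0 + t_E B j0 ≤ 2 * A 0 := by
      have h11 := t_E_le hB hB0 j0
      have h12 := hBA j0
      have h13 := hBA 0
      linarith
    have h14 : C1 / c' * (B j0 + t_E B j0) ≤ C1 / c' * (2 * A 0) :=
      mul_le_mul_of_nonneg_left h10 (by positivity)
    have e : 2 * C1 / c' * A 0 = C1 / c' * (2 * A 0) := by ring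
    rw [e]
    show C1 / c' * (B j0 + t_E B j0) -
      C1 / c' * (B (j0 + (J + 1 - j0)) + t_E B (j0 + (J + 1 - j0))) ≤ C1 / c' * (2 * A 0)
    linarith

end Pool.Agent.H34.SM
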