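import Pool.Agent.H34.SM.G
import Pool.Agent.H34.SM.T
import Pool.Agent.H34.SM.N

/-!
H: the series for one measure, with uniform constants. Copy of DC/J5 (`series_bound2`): the constants `a, c, C2, C, j1` depend only on `e, L, C1`; `A n = fent (pw P (2 (n+1))) / (2 (n+1))` is nonincreasing
(`incr_anti`, `b_anti`) and nonnegative (`fent_pw_nonneg`), `A 0 ≤ fent P` (`b_anti`, `pw_one`). `telescoping_fin` (T) in place of `telescoping`; its constant is `C + 1`.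
In the verification `t ≤ c 4^j`, `j ≤ J`, the drop is `drop_scale3` at the times `2 i`, `i = t + 1`, so the hypotheses on `P` are used only at times `≤ 2 (c 4^J + 1)`; `N` is the ceiling of this number.
-/

namespace Pool.Agent.H34.SM

open Pool.Agent.H34.LS Pool.Agent.H34.RP

universe u

theorem series_fin {e L C1 : ℝ} (he : 0 < e) (hL0 : 0 ≤ L) (hC1 : 0 < C1) :
    ∃ c D : ℝ, 0 < c ∧ 0 < D ∧ ∃ j1 : ℕ, ∀ J : ℕ, ∃ N : ℕ, ∀ (G : Type u) [Group G] (P : G →₀ ℝ)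
      (K : ℕ → ℝ) (j2 : ℕ), j1 ≤ j2 → Prb P → (∀ j, 0 ≤ K j) →
      (∀ t, 1 ≤ t → t ≤ N → e * t ≤ fent (pw P t) ∧
        (pw P t).sum (fun _ a => a * Real.log a ^ 2) ≤ (L * t + 1) * fent (pw P t)) →
      (∀ j, j2 ≤ j → j ≤ J → ∃ T : Finset G, (1 : G) ∈ T ∧
        (∀ n, (1 - C1 / 4 ^ j) ^ n ≤ su P T n 1) ∧ Real.log T.card ≤ 4 ^ j * K j) →
      ∑ j ∈ Finset.Icc j2 J, Real.exp (-(c * K j)) ≤ D * fent P := by
  obtain ⟨a, ha⟩ : ∃ a : ℝ, a = e / (32 * (L + 1)) := ⟨_, rfl⟩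
  have ha0 : 0 < a := by rw [ha]; positivity
  obtain ⟨c, hc⟩ : ∃ c : ℝ, c = a / (8 * C1) := ⟨_, rfl⟩
  have hc0 : 0 < c := by rw [hc]; positivity
  have hcC : 8 * C1 * c = a := by rw [hc]; field_simp
  obtain ⟨C2, hC2⟩ : ∃ C2 : ℝ, C2 = 32 / e + 8 * (c + 1) := ⟨_, rfl⟩
  have hC20 : 0 < C2 := by rw [hC2]; positivity
  obtain ⟨C, hC⟩ : ∃ C : ℝ, C = C2 + 2 * C1 * C2 := ⟨_, rfl⟩
  have hC0 : 0 < C := by rw [hC]; positivity
  have hCC2 : C2 ≤ C := by rw [hC]; have : 0 ≤ 2 * C1 * C2 := by positivity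
                           linarith
  have hCC3 : 2 * C1 * C2 ≤ C := by rw [hC]; linarith
  obtain ⟨j1, hj1⟩ := pow_unbounded_of_one_lt (C1 / (1 / 2) + C1 / (a / 4)) (by norm_num : (1 : ℝ) < 4)
  have hsmall : ∀ j, j1 ≤ j → C1 / 4 ^ j ≤ 1 / 2 ∧ C1 / 4 ^ j ≤ a / 4 := by
    intro j hj
    have h4 : (4 : ℝ) ^ j1 ≤ 4 ^ j := pow_le_pow_right₀ (by norm_num) hj
    have h5 : 0 ≤ C1 / (1 / 2) := by positivity
    have h6 : 0 ≤ C1 / (a / 4) := by positivity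
    have h7 : C1 / (1 / 2) ≤ 4 ^ j := by linarith
    have h8 : C1 / (a / 4) ≤ 4 ^ j := by linarith
    have h40 : (0 : ℝ) < 4 ^ j := by positivity
    constructor
    · rw [div_le_iff₀ h40]
      rw [div_le_iff₀ (by norm_num)] at h7
      linarith
    · rw [div_le_iff₀ h40]
      rw [div_le_iff₀ (by positivity)] at h8
      linarith
  obtain ⟨D, hD0, htel⟩ := telescoping_fin hc0 hC0 (c' := e / 4 * Real.exp (-(2 * C1 * C2))) (by positivity)
  refine ⟨C + 1, D, by linarith, hD0, j1, fun J => ⟨⌈2 * (c * 4 ^ J + 1)⌉₊, ?_⟩⟩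
  intro G _ P K j2 hj2 hP hK hlin hT
  have hanti := incr_anti hP
  obtain ⟨A, hAd⟩ : ∃ A : ℕ → ℝ, ∀ n, A n = fent (pw P (2 * (n + 1))) / ((2 * (n + 1) : ℕ) : ℝ) :=
    ⟨_, fun _ => rfl⟩
  have hAanti : Antitone A := by
    intro m n hmn
    rw [hAd, hAd]
    exact b_anti hanti (by omega) (by omega)
  have hA0 : ∀ n, 0 ≤ A n := by
    intro n
    rw [hAd]
    exact div_nonneg (fent_pw_nonneg hP _) (by positivity)
  have hA00 : A 0 ≤ fent P := by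
    have h1 : fent (pw P (2 * (0 + 1))) / ((2 * (0 + 1) : ℕ) : ℝ) ≤ fent (pw P 1) / ((1 : ℕ) : ℝ) :=
      b_anti hanti (by omega) (by omega)
    rw [hAd]
    refine h1.trans (le_of_eq ?_)
    rw [pw_one, Nat.cast_one, div_one]
  refine (htel A hAanti hA0 K hK j2 J ?_).trans (mul_le_mul_of_nonneg_left hA00 hD0.le)
  intro j hj hjJ t M ht hM
  obtain ⟨S, hS1, hsu, hx3⟩ := hT j hj hjJ
  obtain ⟨hl1, hl2⟩ := hsmall j (le_trans hj2 hj)
  have h40 : (0 : ℝ) < 4 ^ j := by positivity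
  have h41 : (1 : ℝ) ≤ 4 ^ j := one_le_pow₀ (by norm_num)
  obtain ⟨i, hi⟩ : ∃ i : ℕ, i = t + 1 := ⟨_, rfl⟩
  have hi1 : 1 ≤ i := by omega
  have hir : (i : ℝ) = t + 1 := by rw [hi]; push_cast; ring
  have hi0 : (0 : ℝ) < i := by exact_mod_cast hi1
  have hile : (i : ℝ) ≤ (c + 1) * 4 ^ j := by rw [hir]; nlinarith
  have hiN : 2 * i ≤ ⌈2 * (c * 4 ^ J + 1)⌉₊ := by
    have h1 : ((2 * i : ℕ) : ℝ) ≤ 2 * (c * 4 ^ J + 1) := by
      have h2 : (4 : ℝ) ^ j ≤ 4 ^ J := pow_le_pow_right₀ (by norm_num) hjJ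
      have h3 : c * 4 ^ j ≤ c * 4 ^ J := mul_le_mul_of_nonneg_left h2 hc0.le
      push_cast
      rw [hir]
      linarith
    exact_mod_cast h1.trans (Nat.le_ceil _)
  obtain ⟨hE, hLt⟩ := hlin (2 * i) (by omega) hiN
  obtain ⟨X, hX⟩ : ∃ X : ℝ, X = 16 * 4 ^ j * K j / (e * (2 * i)) := ⟨_, rfl⟩
  have hX0 : 0 ≤ X := by
    rw [hX]
    have := hK j
    positivity
  have hX1 : e * (2 * i) * X = 16 * 4 ^ j * K j := by
    rw [hX]
    field_simp
  obtain ⟨m, hm⟩ : ∃ m : ℕ, m = ⌈X⌉₊ + 1 := ⟨_, rfl⟩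
  have hm1 : 1 ≤ m := by omega
  have hmX : X ≤ m := by
    rw [hm]
    push_cast
    have := Nat.le_ceil X
    linarith
  have hmX2 : (m : ℝ) ≤ X + 2 := by
    rw [hm]
    push_cast
    have := Nat.ceil_lt_add_one hX0
    linarith
  obtain ⟨T, hTd⟩ : ∃ T : ℕ, T = 2 * i * (2 * m) := ⟨_, rfl⟩
  have hTr : (T : ℝ) = 2 * i * (2 * m) := by rw [hTd]; push_cast; ring
  have hT1 : 1 ≤ T := by
    rw [hTd]
    have : 1 ≤ i * m := Nat.mul_pos hi1 hm1
    nlinarith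
  have hTlow : 32 * (4 ^ j * K j) ≤ e * T := by
    have h1 : e * (2 * i) * X ≤ e * (2 * i) * m := mul_le_mul_of_nonneg_left hmX (by positivity)
    rw [hTr]
    nlinarith
  have hTup : (T : ℝ) ≤ C2 * (4 ^ j * (K j + 1)) := by
    have h1 : (T : ℝ) ≤ 2 * i * (2 * (X + 2)) := by
      rw [hTr]
      exact mul_le_mul_of_nonneg_left (by linarith) (by positivity)
    have h2 : 2 * (i : ℝ) * (2 * (X + 2)) = 32 / e * (4 ^ j * K j) + 8 * i := by
      have h3 : 2 * (i : ℝ) * X = 16 * 4 ^ j * K j / e := by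
        rw [eq_div_iff he.ne']
        linarith
      have h4 : 2 * (i : ℝ) * (2 * (X + 2)) = 2 * (2 * (i : ℝ) * X) + 8 * i := by ring
      rw [h4, h3]
      ring
    have h5 : 0 ≤ 4 ^ j * K j := mul_nonneg h40.le (hK j)
    have h6 : 0 ≤ 8 * (c + 1) * (4 ^ j * K j) := by positivity
    have h7 : 0 ≤ 32 / e * 4 ^ j := by positivity
    rw [hC2]
    nlinarith
  have hTM : T ≤ 2 * (M + 1) := by
    have h1 : (T : ℝ) ≤ M := by
      refine hTup.trans (le_trans ?_ hM)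
      exact mul_le_mul_of_nonneg_right hCC2 (mul_nonneg h40.le (by linarith [hK j]))
    have h2 : T ≤ M := by exact_mod_cast h1
    omega
  have hAM : A M ≤ fent (pw P T) / (T : ℝ) := by
    rw [hAd]
    exact b_anti hanti hT1 hTM
  have hd := drop_scale3 hP hL0 he hS1 (l := C1 / 4 ^ j) (by positivity) hl1 hsu (t := 2 * i) (m := 2 * m)
    (by omega) (by omega) hLt hE
    (by
      rw [← ha]
      push_cast
      have h1 : C1 / 4 ^ j * (2 * (i : ℝ)) ≤ C1 / 4 ^ j * (2 * (c * 4 ^ j + 1)) :=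
        mul_le_mul_of_nonneg_left (by rw [hir]; linarith) (by positivity)
      have h2 : C1 / 4 ^ j * (2 * (c * 4 ^ j + 1)) = 2 * C1 * c + 2 * (C1 / 4 ^ j) := by
        field_simp
      linarith)
    (by
      have h1 : ((2 * i * (2 * m) : ℕ) : ℝ) = T := by rw [hTd]
      rw [h1]
      linarith)
  have e1 : ((2 * i * (2 * m) : ℕ) : ℝ) = T := by rw [hTd]
  rw [e1, ← hTd] at hd
  have e2 : fent (pw P (2 * i)) / ((2 * i : ℕ) : ℝ) = A t := by rw [hAd, hi]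
  rw [e2] at hd
  have hexp : Real.exp (-(2 * C1 * C2)) * Real.exp (-(C * K j)) ≤
      Real.exp (-(2 * (C1 / 4 ^ j) * (T : ℝ))) := by
    rw [← Real.exp_add]
    apply Real.exp_le_exp.2
    have h1 : 2 * (C1 / 4 ^ j) * (T : ℝ) ≤ 2 * (C1 / 4 ^ j) * (C2 * (4 ^ j * (K j + 1))) :=
      mul_le_mul_of_nonneg_left hTup (by positivity)
    have h2 : 2 * (C1 / 4 ^ j) * (C2 * (4 ^ j * (K j + 1))) = 2 * C1 * C2 * (K j + 1) := by
      field_simp
    have h3 : 2 * C1 * C2 * K j ≤ C * K j := mul_le_mul_of_nonneg_right hCC3 (hK j)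
    linarith
  have h9 : e / 4 * Real.exp (-(2 * C1 * C2)) * Real.exp (-(C * K j)) ≤
      e / 4 * Real.exp (-(2 * (C1 / 4 ^ j) * (T : ℝ))) := by
    rw [mul_assoc]
    exact mul_le_mul_of_nonneg_left hexp (by positivity)
  linarith

end Pool.Agent.H34.SM
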