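import Pool.Agent.H34.SM.Defs
import Pool.Agent.H34.LS.W1

/-!
W: the reference weight has total mass at most one. Let `A = S ∪ S⁻¹` (finite), `a = max 1 (card A)`, `b = 2 a`. The elements of `U` of length `k` are at most `a ^ k` many (geodesic words, `wl_exists`: lists of length `k`
with letters in `A`, for instance as functions `Fin k → A`, or by induction on `k`: an element of length `k + 1` is an element of `A` times an element of length `k`). So
`sum_{g ∈ U} rwt S b g = sum_k (number of g ∈ U of length k) * 1/2 / b^k ≤ sum_k 1/2 / 2^k ≤ 1` (finite sum over `k ≤ max length`; `Finset.sum_fiberwise_of_maps_to`, geometric sum).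
-/

namespace Pool.Agent.H34.SM

open Pool.Agent.H34.LS Pool.Agent.H34.RP

universe u

variable {G : Type u} [Group G]

open Classical in
/-- products of `k` letters. -/
private noncomputable def wBall (A : Finset G) : ℕ → Finset G
  | 0 => {1}
  | k + 1 => Finset.image₂ (fun x y => x * y) A (wBall A k)

private theorem w_card (A : Finset G) (k : ℕ) : (wBall A k).card ≤ (A.card + 1) ^ k := by
  classical
  induction k with
  | zero => simp [wBall]
  | succ k ih =>
    have h1 : (wBall A (k + 1)).card ≤ A.card * (wBall A k).card := by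
      rw [wBall]
      convert Finset.card_image₂_le (fun x y => x * y) A (wBall A k)
    calc (wBall A (k + 1)).card ≤ A.card * (wBall A k).card := h1
      _ ≤ (A.card + 1) * (A.card + 1) ^ k := Nat.mul_le_mul (Nat.le_succ _) ih
      _ = (A.card + 1) ^ (k + 1) := by rw [pow_succ, mul_comm]

private theorem w_mem (A : Finset G) (l : List G) (h : ∀ x ∈ l, x ∈ A) :
    l.prod ∈ wBall A l.length := by
  classical
  induction l with
  | nil => simp [wBall]
  | cons x l ih =>
    rw [List.prod_cons, List.length_cons, wBall]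
    refine Finset.mem_image₂.2 ⟨x, h x (by simp), l.prod, ih (fun y hy => h y (by simp [hy])), rfl⟩

theorem rwt_sum {S : Set G} (hSf : S.Finite) (hS : Subgroup.closure S = ⊤) :
    ∃ b : ℝ, 1 ≤ b ∧ ∀ U : Finset G, ∑ g ∈ U, rwt S b g ≤ 1 := by
  classical
  have hAf : {x : G | x ∈ S ∨ x⁻¹ ∈ S}.Finite := by
    have h1 : {x : G | x ∈ S ∨ x⁻¹ ∈ S} = S ∪ S⁻¹ := by
      ext x
      simp
    rw [h1]
    exact hSf.union hSf.inv
  set A : Finset G := hAf.toFinset with hA
  have hmA : ∀ x, x ∈ A ↔ (x ∈ S ∨ x⁻¹ ∈ S) := by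
    intro x
    rw [hA, Set.Finite.mem_toFinset]
    rfl
  have ha1 : (1 : ℝ) ≤ (A.card : ℝ) + 1 := by
    have : (0 : ℝ) ≤ (A.card : ℝ) := Nat.cast_nonneg _
    linarith
  refine ⟨2 * ((A.card : ℝ) + 1), by linarith, ?_⟩
  intro U
  set b : ℝ := 2 * ((A.card : ℝ) + 1) with hb
  have hbpos : 0 < b := by rw [hb]; linarith
  set N : ℕ := U.sup (fun g => wordLength S g) + 1 with hN
  have hmaps : ∀ g ∈ U, wordLength S g ∈ Finset.range N := by
    intro g hg
    rw [Finset.mem_range, hN]
    exact Nat.lt_succ_of_le (Finset.le_sup (f := fun g => wordLength S g) hg)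
  rw [← Finset.sum_fiberwise_of_maps_to hmaps]
  have hk : ∀ k ∈ Finset.range N, ∑ g ∈ U with wordLength S g = k, rwt S b g ≤
      1 / 2 * (1 / 2 : ℝ) ^ k := by
    intro k _
    have h1 : ∑ g ∈ U with wordLength S g = k, rwt S b g =
        ((U.filter (fun g => wordLength S g = k)).card : ℝ) * (1 / 2 / b ^ k) := by
      rw [← nsmul_eq_mul, ← Finset.sum_const]
      apply Finset.sum_congr rfl
      intro g hg
      rw [Finset.mem_filter] at hg
      rw [rwt, hg.2]
    have h2 : (U.filter (fun g => wordLength S g = k)).card ≤ (A.card + 1) ^ k := by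
      refine le_trans (Finset.card_le_card ?_) (w_card A k)
      intro g hg
      rw [Finset.mem_filter] at hg
      obtain ⟨l, hl, hs, hp⟩ := wl_exists hS g
      have h3 := w_mem A l (fun x hx => (hmA x).2 (hs x hx))
      rw [hp, hl, hg.2] at h3
      exact h3
    have h2' : ((U.filter (fun g => wordLength S g = k)).card : ℝ) ≤ ((A.card : ℝ) + 1) ^ k := by
      exact_mod_cast h2
    rw [h1]
    have hpos : 0 ≤ 1 / 2 / b ^ k := by positivity
    refine le_trans (mul_le_mul_of_nonneg_right h2' hpos) (le_of_eq ?_)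
    rw [hb, mul_pow]
    have hne : ((A.card : ℝ) + 1) ^ k ≠ 0 := by positivity
    field_simp
    rw [← mul_pow]
    norm_num
  refine le_trans (Finset.sum_le_sum hk) ?_
  rw [← Finset.mul_sum]
  have hg : ∑ k ∈ Finset.range N, (1 / 2 : ℝ) ^ k ≤ 2 := by
    have := geom_sum_eq (show (1 / 2 : ℝ) ≠ 1 by norm_num) N
    rw [this]
    have h0 : (0 : ℝ) ≤ (1 / 2 : ℝ) ^ N := by positivity
    rw [div_le_iff_of_neg (by norm_num)]
    linarith
  linarith

end Pool.Agent.H34.SM
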