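import Pool.Agent.H34.SM.A
import Pool.Agent.H34.SM.B
import Pool.Agent.H34.SM.C
import Pool.Agent.H34.SM.W
import Pool.Agent.H34.SM.D
import Pool.Agent.H34.SM.E
import Pool.Agent.H34.SM.H

/-!
Q: the quantitative criterion. `H` from `exists_H`, `b` from `rwt_sum`; `M0 = M + 1`, `C1 = 12 H^2 M0`, `L = (8 (log b)^2 M0 + 16) / e`: by `logsq_le`, `mom2_pw` the second moment of the information of `pw P t`
is `≤ 8 (log b)^2 t^2 M + 16 ≤ e L t^2 ≤ L t * fent (pw P t)` for `t ≥ 1` (then `≤ (L t + 1) * fent (pw P t)` by `fent_pw_nonneg`). `series_fin` gives `c, D, j1`; use it with `j2 = max j1 j0`, `j0 ≥ 1` with `C1 / 4^j0 ≤ 1`.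
For `j ≥ j2`, `w = 2^(j-1)`, `T = RchT P S H hh w` as a finset (finite: subset of `window f S (2 w) = window f S (2^j)`, `rchT_sub`), `1 ∈ T` (`one_mem_rchT`), `psi w 0 = 1`, `(1 - C1 / 4^j)^n ≤ su P T n 1` by `subsol_sym`, `su_rchT`
at `x = 1` (`3 H^2 M0 / w^2 = C1 / 4^j`), `log |T| ≤ log |window f S (2^j)| = 4^j K j` (see DC/J6 `j6_scale` and the end of J6). `fent P ≤ log b * M + 2` (`fent_le`): the bound is `D * (log b * M + 2)`.
`crit`: otherwise for every `J` the partial sum is at most `D`; so the series is summable (`summable_of_sum_range_le`, the first `j1` terms do not matter), against `hdiv c`.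
-/

namespace Pool.Agent.H34.SM

open Pool.Agent.H34.LS Pool.Agent.H34.RP

universe u

variable {G : Type u} [Group G]

private theorem q_psi (w : ℕ) : psi w 0 = 1 := by
  unfold psi
  simp

/-- one scale -/
private theorem q_scale (f : G →* Multiplicative ℤ) {S : Set G}
    (hS : Subgroup.closure S = ⊤) (hfin : ∀ n, (window f S n).Finite) {P : G →₀ ℝ}
    (hP : Prb P) (hsym : ∀ g, P g⁻¹ = P g) {H : ℕ} (hH1 : 1 ≤ H)
    (hH : ∀ g, |Multiplicative.toAdd (f g)| ≤ (H : ℤ) * (wordLength S g : ℤ)) {M : ℝ}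
    (hM : mom2 S P ≤ M) {w : ℕ} (hw : 1 ≤ w) (hl : 3 * (H : ℝ) ^ 2 * M / (w : ℝ) ^ 2 ≤ 1) :
    ∃ T : Finset G, (1 : G) ∈ T ∧
      (∀ n, (1 - 3 * (H : ℝ) ^ 2 * M / (w : ℝ) ^ 2) ^ n ≤ su P T n 1) ∧
      Real.log T.card ≤ Real.log ((window f S (2 * w)).ncard : ℝ) := by
  have hss := rchT_sub f hS hH P w
  have hf : (RchT P S H (fun g => Multiplicative.toAdd (f g)) w).Finite :=
    (hfin (2 * w)).subset hss
  have hhom : ∀ x y, (fun g => (Multiplicative.toAdd (f g) : ℤ)) (x * y) =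
      (fun g => (Multiplicative.toAdd (f g) : ℤ)) x +
        (fun g => (Multiplicative.toAdd (f g) : ℤ)) y := fun x y => by
    show Multiplicative.toAdd (f (x * y)) = Multiplicative.toAdd (f x) + Multiplicative.toAdd (f y)
    rw [map_mul, toAdd_mul]
  have hmem : (1 : G) ∈ hf.toFinset :=
    (Set.Finite.mem_toFinset hf).2 (one_mem_rchT hhom P S H w)
  have hpos : 1 ≤ hf.toFinset.card := Finset.card_pos.2 ⟨1, hmem⟩
  refine ⟨hf.toFinset, hmem, fun n => ?_, ?_⟩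
  · have h3 := su_rchT (P := P) (hh := fun g => (Multiplicative.toAdd (f g) : ℤ)) hP.nonneg hhom
      (S := S) (H := H) hw
      (l := 1 - 3 * (H : ℝ) ^ 2 * M / (w : ℝ) ^ 2)
      (by linarith) (fun x => subsol_sym hP hsym hhom hS hH1 hH hM hw x)
      (T := hf.toFinset) (Set.Finite.coe_toFinset hf) n hmem
    have h4 : (Multiplicative.toAdd (f 1) : ℤ) = 0 := by rw [map_one, toAdd_one]
    have h5 : psi w ((fun g => (Multiplicative.toAdd (f g) : ℤ)) (1 : G)) = 1 := by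
      show psi w (Multiplicative.toAdd (f 1)) = 1
      rw [h4, q_psi]
    rw [h5, mul_one] at h3
    exact h3
  · have h6 : hf.toFinset.card ≤ (window f S (2 * w)).ncard := by
      rw [← Set.ncard_coe_finset]
      refine Set.ncard_le_ncard ?_ (hfin _)
      rw [Set.Finite.coe_toFinset]
      exact hss
    refine Real.log_le_log ?_ ?_
    · exact_mod_cast hpos
    · exact_mod_cast h6

theorem crit_fin (f : G →* Multiplicative ℤ) {S : Set G} (hSf : S.Finite)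
    (hS : Subgroup.closure S = ⊤) (hfin : ∀ n, (window f S n).Finite) {e M : ℝ} (he : 0 < e)
    (hM : 0 ≤ M) :
    ∃ c D : ℝ, 0 < c ∧ ∃ j1 : ℕ, ∀ J : ℕ, ∃ N : ℕ, ∀ P : G →₀ ℝ, Prb P → (∀ g, P g⁻¹ = P g) →
      mom2 S P ≤ M → (∀ t, t ≤ N → e * t ≤ fent (pw P t)) →
      ∑ j ∈ Finset.Icc j1 J,
        Real.exp (-(c * (Real.log ((window f S (2 ^ j)).ncard : ℝ) / 4 ^ j))) ≤ D := by
  obtain ⟨H, hH1, hH⟩ := exists_H f hSf hS
  obtain ⟨b, hb, hr⟩ := rwt_sum hSf hS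
  have hHr : (1 : ℝ) ≤ (H : ℝ) := by exact_mod_cast hH1
  have hH0 : (0 : ℝ) < (H : ℝ) := by linarith
  obtain ⟨M0, hM0, hM1⟩ : ∃ M0 : ℝ, 0 < M0 ∧ M ≤ M0 := ⟨M + 1, by linarith, by linarith⟩
  have hC1 : 0 < 12 * (H : ℝ) ^ 2 * M0 := by positivity
  have hA0 : 0 ≤ 8 * Real.log b ^ 2 * M0 + 16 := by positivity
  have hL0 : 0 ≤ (8 * Real.log b ^ 2 * M0 + 16) / e := by positivity
  obtain ⟨c, D, hc, hD, j1, hser⟩ := series_fin.{u} he hL0 hC1
  obtain ⟨j0, hj0⟩ : ∃ j0 : ℕ, 12 * (H : ℝ) ^ 2 * M0 ≤ 4 ^ j0 := by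
    obtain ⟨n, hn⟩ := pow_unbounded_of_one_lt (12 * (H : ℝ) ^ 2 * M0) (by norm_num : (1 : ℝ) < 4)
    exact ⟨n, hn.le⟩
  have hK0 : ∀ j, 0 ≤ (fun j : ℕ => Real.log ((window f S (2 ^ j)).ncard : ℝ) / 4 ^ j) j :=
    fun j => div_nonneg (Real.log_natCast_nonneg _) (by positivity)
  refine ⟨c, D * (Real.log b * M + 2), hc, max j1 (j0 + 1), fun J => ?_⟩
  obtain ⟨N, hN⟩ := hser J
  refine ⟨N, fun P hP hsym hmom hent => ?_⟩
  have hmom0 : mom2 S P ≤ M0 := hmom.trans hM1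
  refine (hN G P (fun j : ℕ => Real.log ((window f S (2 ^ j)).ncard : ℝ) / 4 ^ j)
    (max j1 (j0 + 1)) (le_max_left _ _) hP hK0 ?_ ?_).trans ?_
  · intro t ht htN
    have h1 := hent t htN
    refine ⟨h1, ?_⟩
    have hq : Prb (pw P t) := ⟨fun g => pw_nonneg hP.nonneg t g, tot_pw hP.total _⟩
    have h2 := logsq_le hb hr hq
    have h3 := mom2_pw hS hP t
    have ht1 : (1 : ℝ) ≤ t := by exact_mod_cast ht
    have ht2 : (1 : ℝ) ≤ (t : ℝ) ^ 2 := one_le_pow₀ ht1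
    have h4 : mom2 S (pw P t) ≤ (t : ℝ) ^ 2 * M0 :=
      h3.trans (mul_le_mul_of_nonneg_left hmom0 (by positivity))
    have h5 : 8 * Real.log b ^ 2 * mom2 S (pw P t) + 16 ≤
        (8 * Real.log b ^ 2 * M0 + 16) * (t : ℝ) ^ 2 := by
      have h51 : 8 * Real.log b ^ 2 * mom2 S (pw P t) ≤
          8 * Real.log b ^ 2 * ((t : ℝ) ^ 2 * M0) :=
        mul_le_mul_of_nonneg_left h4 (by positivity)
      nlinarith
    have h6 : (8 * Real.log b ^ 2 * M0 + 16) * (t : ℝ) ^ 2 =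
        ((8 * Real.log b ^ 2 * M0 + 16) / e * t) * (e * t) := by
      field_simp
    have h7 : ((8 * Real.log b ^ 2 * M0 + 16) / e * t) * (e * t) ≤
        ((8 * Real.log b ^ 2 * M0 + 16) / e * t) * fent (pw P t) :=
      mul_le_mul_of_nonneg_left h1 (by positivity)
    have h8 := fent_pw_nonneg hP t
    have h9 : ((8 * Real.log b ^ 2 * M0 + 16) / e * t + 1) * fent (pw P t) =
        ((8 * Real.log b ^ 2 * M0 + 16) / e * t) * fent (pw P t) + fent (pw P t) := by ring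
    rw [h9]
    linarith
  · intro j hj _
    obtain ⟨i, rfl⟩ : ∃ i, j = i + 1 := ⟨j - 1, by
      have := le_max_right j1 (j0 + 1)
      omega⟩
    have hi : j0 ≤ i := by
      have := le_max_right j1 (j0 + 1)
      omega
    have h4 : 12 * (H : ℝ) ^ 2 * M0 / 4 ^ (i + 1) =
        3 * (H : ℝ) ^ 2 * M0 / ((2 ^ i : ℕ) : ℝ) ^ 2 := by
      have h5 : (4 : ℝ) ^ i = (2 ^ i) ^ 2 := by
        rw [← pow_mul, mul_comm i 2, pow_mul]
        norm_num
      push_cast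
      rw [pow_succ (4 : ℝ) i, h5, mul_comm ((2 ^ i : ℝ) ^ 2) 4,
        show 12 * (H : ℝ) ^ 2 * M0 = 4 * (3 * (H : ℝ) ^ 2 * M0) by ring,
        mul_div_mul_left _ _ (by norm_num)]
    have hl : 3 * (H : ℝ) ^ 2 * M0 / ((2 ^ i : ℕ) : ℝ) ^ 2 ≤ 1 := by
      rw [← h4, div_le_one (by positivity)]
      exact hj0.trans (pow_le_pow_right₀ (by norm_num) (by omega))
    obtain ⟨T, hT1, hT3, hT4⟩ := q_scale f hS hfin hP hsym hH1 hH hmom0 (w := 2 ^ i)
      Nat.one_le_two_pow hl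
    have h2 : 2 * 2 ^ i = 2 ^ (i + 1) := by ring
    have hlog : Real.log ((window f S (2 ^ (i + 1))).ncard : ℝ) =
        4 ^ (i + 1) * (Real.log ((window f S (2 ^ (i + 1))).ncard : ℝ) / 4 ^ (i + 1)) := by
      field_simp
    refine ⟨T, hT1, fun n => ?_, ?_⟩
    · rw [h4]
      exact hT3 n
    · rw [h2] at hT4
      show Real.log T.card ≤
        4 ^ (i + 1) * (Real.log ((window f S (2 ^ (i + 1))).ncard : ℝ) / 4 ^ (i + 1))
      rw [← hlog]
      exact hT4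
  · refine mul_le_mul_of_nonneg_left ?_ hD.le
    refine (fent_le hb hr hP).trans ?_
    have h1 := mul_le_mul_of_nonneg_left hmom (Real.log_nonneg hb)
    linarith

theorem crit (f : G →* Multiplicative ℤ) {S : Set G} (hSf : S.Finite)
    (hS : Subgroup.closure S = ⊤) (hfin : ∀ n, (window f S n).Finite)
    (hdiv : Diverges (fun j => Real.log ((window f S (2 ^ j)).ncard : ℝ) / 4 ^ j)) {e M : ℝ}
    (he : 0 < e) (hM : 0 ≤ M) :
    ∃ N : ℕ, ∀ P : G →₀ ℝ, Prb P → (∀ g, P g⁻¹ = P g) → mom2 S P ≤ M →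
      ¬ ∀ t, t ≤ N → e * t ≤ fent (pw P t) := by
  obtain ⟨c, D, hc, j1, hJ⟩ := crit_fin f hSf hS hfin he hM
  by_contra hcon
  have hbound : ∀ J : ℕ, ∑ j ∈ Finset.Icc j1 J,
      Real.exp (-(c * (Real.log ((window f S (2 ^ j)).ncard : ℝ) / 4 ^ j))) ≤ D := by
    intro J
    obtain ⟨N, hN⟩ := hJ J
    by_contra hb
    refine hcon ⟨N, fun P h1 h2 h3 h4 => hb (hN P h1 h2 h3 h4)⟩
  refine hdiv c hc ?_
  rw [← summable_nat_add_iff j1]
  refine summable_of_sum_range_le (c := D) (fun n => (Real.exp_pos _).le) fun n => ?_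
  refine le_trans ?_ (hbound (j1 + n))
  have h1 : ∑ i ∈ Finset.range n,
      Real.exp (-(c * (Real.log ((window f S (2 ^ (i + j1))).ncard : ℝ) / 4 ^ (i + j1)))) =
      ∑ j ∈ Finset.Ico j1 (j1 + n),
        Real.exp (-(c * (Real.log ((window f S (2 ^ j)).ncard : ℝ) / 4 ^ j))) := by
    rw [Finset.sum_Ico_eq_sum_range, Nat.add_sub_cancel_left]
    refine Finset.sum_congr rfl fun i _ => ?_
    rw [add_comm i j1]
  rw [h1]
  refine Finset.sum_le_sum_of_subset_of_nonneg ?_ fun j _ _ => (Real.exp_pos _).le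
  intro j hj
  rw [Finset.mem_Ico] at hj
  rw [Finset.mem_Icc]
  exact ⟨hj.1, hj.2.le⟩

end Pool.Agent.H34.SM
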