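import Pool.Agent.H34.SM.Defs
import Pool.Agent.H34.LS.E12
import Pool.Agent.H34.LS.W1
import Pool.Agent.H34.LS.W2

/-!
S1: lifting with control of the lengths. `exists_sec`: for `g : G` take a geodesic word for `pi '' S` (`wl_exists`; `pi '' S` generates `G`: `Subgroup.closure_image`/`map`), lift its letters: an element `x` with `pi x = g` and
`wordLength S x ≤ wordLength (pi '' S) g` (`wl_le`). `lift_len`: as `e12_lift` (E12) with this section (it is injective): `mom2 S q = sum_g p g |x_g|^2`.
`wl_map`: `K = sum_{s ∈ S} wordLength S' (phi s)` (`S` finite), word induction (`wl_exists`, `wl_mul`, `wl_inv`).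
-/

namespace Pool.Agent.H34.SM

open Pool.Agent.H34.LS Pool.Agent.H34.RP

universe u v

variable {F : Type u} {G : Type v} [Group F] [Group G]

theorem image_closure {S : Set F} (hS : Subgroup.closure S = ⊤) (pi : F →* G)
    (hpi : Function.Surjective pi) : Subgroup.closure (pi '' S) = ⊤ :=
  closure_image pi hpi hS

theorem lift_len {S : Set F} (hS : Subgroup.closure S = ⊤) (pi : F →* G)
    (hpi : Function.Surjective pi) {p : MonoidAlgebra ℝ G} (hp : PA p) :
    ∃ q : MonoidAlgebra ℝ F, PA q ∧ mp pi q = p ∧ mom2 S q.coeff ≤ mom2 (pi '' S) p.coeff := by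
  classical
  choose sec hsec hlen using fun g => wl_lift pi hpi hS g
  have hinj : Function.Injective sec := by
    intro a b hab
    rw [← hsec a, ← hsec b, hab]
  refine ⟨MonoidAlgebra.ofCoeff (Finsupp.mapDomain sec p.coeff), ⟨?_, ?_⟩, ?_, ?_⟩
  · intro x
    rw [MonoidAlgebra.coeff_ofCoeff]
    by_cases hx : x ∈ Set.range sec
    · obtain ⟨g, rfl⟩ := hx
      rw [Finsupp.mapDomain_apply hinj]
      exact hp.1 g
    · rw [Finsupp.mapDomain_of_notMem_range _ _ hx]
  · rw [MonoidAlgebra.coeff_ofCoeff, Finsupp.sum_mapDomain_index (fun _ => rfl)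
      (fun _ _ _ => rfl)]
    exact hp.2
  · apply MonoidAlgebra.coeff_injective
    change Finsupp.mapDomain pi (Finsupp.mapDomain sec p.coeff) = p.coeff
    rw [← Finsupp.mapDomain_comp]
    have : (pi : F → G) ∘ sec = id := funext hsec
    rw [this, Finsupp.mapDomain_id]
  · rw [MonoidAlgebra.coeff_ofCoeff, mom2, mom2, Finsupp.sum_mapDomain_index
      (fun _ => zero_mul _) (fun _ _ _ => add_mul _ _ _)]
    refine le_of_eq (Finsupp.sum_congr fun g _ => ?_)
    rw [hlen g]

private theorem s1_word {S' : Set G} (hS' : Subgroup.closure S' = ⊤) (phi : F →* G) {K : ℕ} :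
    ∀ l : List F, (∀ y ∈ l, wordLength S' (phi y) ≤ K) →
      wordLength S' (phi l.prod) ≤ K * l.length := by
  intro l
  induction l with
  | nil =>
    intro _
    rw [List.prod_nil, map_one, wl_one]
    exact Nat.zero_le _
  | cons x l ih =>
    intro h
    have h1 := ih fun y hy => h y (List.mem_cons_of_mem _ hy)
    have h2 := h x List.mem_cons_self
    rw [List.prod_cons, map_mul, List.length_cons, Nat.mul_succ]
    have h3 := wl_mul hS' (phi x) (phi l.prod)
    omega

theorem wl_map {S : Set F} (hSf : S.Finite) (hS : Subgroup.closure S = ⊤) {S' : Set G}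
    (hS' : Subgroup.closure S' = ⊤) (phi : F →* G) :
    ∃ K : ℕ, ∀ x, wordLength S' (phi x) ≤ K * wordLength S x := by
  refine ⟨∑ s ∈ hSf.toFinset, wordLength S' (phi s), fun x => ?_⟩
  obtain ⟨l, hl, hlS, rfl⟩ := wl_exists hS x
  rw [← hl]
  refine s1_word hS' phi l fun y hy => ?_
  have key : ∀ z ∈ S, wordLength S' (phi z) ≤ ∑ s ∈ hSf.toFinset, wordLength S' (phi s) := by
    intro z hz
    exact Finset.single_le_sum (f := fun s => wordLength S' (phi s)) (fun _ _ => Nat.zero_le _)
      (hSf.mem_toFinset.2 hz)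
  rcases hlS y hy with h | h
  · exact key y h
  · have h1 := key y⁻¹ h
    rwa [map_inv, wl_inv hS'] at h1

end Pool.Agent.H34.SM
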