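import Pool.Agent.H34.RP.Defs
import Pool.Agent.H34.RP.Stm
import Pool.Agent.H34.LS.Win

/-!
# Measures with finite second moment: definitions
-/

namespace Pool.Agent.H34.SM

open Pool.Agent.H34.LS Pool.Agent.H34.RP

universe u

/-- second moment of the word length. -/
noncomputable def mom2 {G : Type u} [Group G] (S : Set G) (P : G →₀ ℝ) : ℝ :=
  P.sum (fun g a => a * (wordLength S g : ℝ) ^ 2)

/-- products of elements `g` of the support of `P` with `H * wordLength S g ≤ w`, all of whose prefixes
have heights in `[-w, w]`. -/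
def RchT {G : Type u} [Group G] (P : G →₀ ℝ) (S : Set G) (H : ℕ) (hh : G → ℤ) (w : ℕ) : Set G :=
  {x | ∃ l : List G, (∀ g ∈ l, P g ≠ 0 ∧ H * wordLength S g ≤ w) ∧ l.prod = x ∧
    ∀ k : ℕ, |hh (l.take k).prod| ≤ (w : ℤ)}

/-- the reference weight. -/
noncomputable def rwt {G : Type u} [Group G] (S : Set G) (b : ℝ) (g : G) : ℝ :=
  1 / 2 / b ^ wordLength S g

/-- `mu` is a symmetric generating probability measure, possibly of infinite support, with finite
second moment. -/
structure Sym2 {G : Type u} [Group G] (mu : G → ℝ) : Prop where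
  nonneg : ∀ g, 0 ≤ mu g
  total : HasSum mu 1
  gen : Generating mu
  symm : Symm mu
  moment : ∃ S : Set G, S.Finite ∧ Subgroup.closure S = ⊤ ∧
    Summable fun g => mu g * (wordLength S g : ℝ) ^ 2

/-- every bounded `mu`-harmonic function is constant. -/
def Liouville {G : Type u} [Group G] (mu : G → ℝ) : Prop :=
  ∀ f : G → ℝ, (∃ C, ∀ g, |f g| ≤ C) → (∀ g, HasSum (fun h => mu h * f (g * h)) (f g)) →
    ∀ x y, f x = f y

end Pool.Agent.H34.SM
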