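import Pool.Agent.H34.SM.Defs
import Pool.Agent.H34.RP.D1
import Pool.Agent.H34.LS.V14

/-!
F: the drop inequality with a second moment of the information instead of a bound. Copy of RP/D3 (`D3_sumexp`, `drop3`) and RP/D4 (`drop4`). The only change is in `D3_sumexp`: for `x = - log (q g) / L ≥ 0`:
`exp (-x) ≤ 1 - x + x^2 / 2` (from `exp x ≥ 1 + x + x^2/2`, `Real.quadratic_le_exp_of_nonneg`, and `(1 - x + x^2/2) (1 + x + x^2/2) = 1 + x^4/4 ≥ 1`), so
`sum q g exp (log (q g) / L) ≤ 1 - fent q / L + (sum q (log q)^2) / (2 L^2) ≤ 1 - fent q / (2 L)` by `hL`.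
-/

namespace Pool.Agent.H34.SM

open Pool.Agent.H34.LS Pool.Agent.H34.RP

universe u

variable {G : Type u} [Group G] {q : G →₀ ℝ}

private theorem f_exp {x : ℝ} (hx : x ≤ 0) : Real.exp x ≤ 1 + x + x ^ 2 / 2 := by
  have h1 : 1 + (-x) + (-x) ^ 2 / 2 ≤ Real.exp (-x) := Real.quadratic_le_exp_of_nonneg (by linarith)
  have h4 : Real.exp x * Real.exp (-x) = 1 := by
    rw [← Real.exp_add]
    simp
  have h5 : 0 < Real.exp x := Real.exp_pos x
  have h6 : Real.exp x * (1 + (-x) + (-x) ^ 2 / 2) ≤ 1 := by
    calc Real.exp x * (1 + (-x) + (-x) ^ 2 / 2) ≤ Real.exp x * Real.exp (-x) :=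
          mul_le_mul_of_nonneg_left h1 h5.le
      _ = 1 := h4
  have h7 : 1 ≤ (1 + x + x ^ 2 / 2) * (1 + (-x) + (-x) ^ 2 / 2) := by
    have h9 : (1 + x + x ^ 2 / 2) * (1 + (-x) + (-x) ^ 2 / 2) = 1 + x ^ 4 / 4 := by ring
    rw [h9]
    have : 0 ≤ x ^ 4 := by positivity
    linarith
  have h8 : 0 < 1 + (-x) + (-x) ^ 2 / 2 := by nlinarith [sq_nonneg x]
  by_contra hcon
  push Not at hcon
  have := mul_lt_mul_of_pos_right hcon h8
  linarith

private theorem f_sumexp (hq : Prb q) {L : ℝ} (hL0 : 0 < L)
    (hL : q.sum (fun _ a => a * Real.log a ^ 2) ≤ L * fent q) :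
    ∑ g ∈ q.support, q g * Real.exp (Real.log (q g) / L) ≤ Real.exp (-(fent q / (2 * L))) := by
  have htot : ∑ g ∈ q.support, q g = 1 := hq.total
  have h1 : ∀ g ∈ q.support, q g * Real.exp (Real.log (q g) / L)
      ≤ q g - Real.negMulLog (q g) / L + q g * Real.log (q g) ^ 2 / (2 * L ^ 2) := by
    intro g hg
    have hne : q g ≠ 0 := Finsupp.mem_support_iff.mp hg
    have hpos : 0 < q g := lt_of_le_of_ne (hq.nonneg g) (Ne.symm hne)
    have hle1 : q g ≤ 1 := by
      have := Finset.single_le_sum (f := fun g => q g) (fun i _ => hq.nonneg i) hg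
      linarith
    obtain ⟨x, hx⟩ : ∃ x, x = Real.log (q g) / L := ⟨_, rfl⟩
    have hx0 : x ≤ 0 := by
      rw [hx]
      exact div_nonpos_of_nonpos_of_nonneg (Real.log_nonpos hpos.le hle1) hL0.le
    have h2 := mul_le_mul_of_nonneg_left (f_exp hx0) hpos.le
    have h9 : Real.negMulLog (q g) / L = -(q g * x) := by
      rw [hx, Real.negMulLog]
      field_simp
    have h10 : q g * Real.log (q g) ^ 2 / (2 * L ^ 2) = q g * (x ^ 2 / 2) := by
      rw [hx]
      field_simp
    rw [← hx, h9, h10]
    linarith
  have h11 : ∑ g ∈ q.support, q g * Real.log (q g) ^ 2 ≤ L * fent q := hL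
  calc ∑ g ∈ q.support, q g * Real.exp (Real.log (q g) / L)
      ≤ ∑ g ∈ q.support, (q g - Real.negMulLog (q g) / L +
          q g * Real.log (q g) ^ 2 / (2 * L ^ 2)) := Finset.sum_le_sum h1
    _ = 1 - fent q / L + (∑ g ∈ q.support, q g * Real.log (q g) ^ 2) / (2 * L ^ 2) := by
        rw [Finset.sum_add_distrib, Finset.sum_sub_distrib, htot, ← Finset.sum_div,
          ← Finset.sum_div]
        rfl
    _ ≤ 1 - fent q / L + (L * fent q) / (2 * L ^ 2) := by
        gcongr
    _ = 1 - fent q / (2 * L) := by
        field_simp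
        ring
    _ ≤ Real.exp (-(fent q / (2 * L))) := by
        linarith [Real.add_one_le_exp (-(fent q / (2 * L)))]

private theorem f_drop3 (hq : Prb q) {L : ℝ} (hL0 : 0 < L)
    (hL : q.sum (fun _ a => a * Real.log a ^ 2) ≤ L * fent q)
    (S : Finset G) (m : ℕ) (c : ℝ) (y : G) :
    (1 + c) * su q S m y - zz q S m y / L ≤ Real.exp (c - m * fent q / (2 * L)) := by
  classical
  induction m generalizing c y with
  | zero =>
      by_cases hy : y ∈ S
      · simp only [su, zz, hy, if_true]
        have := Real.add_one_le_exp c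
        simp only [Nat.cast_zero, zero_mul, zero_div, sub_zero, mul_one]
        linarith
      · simp only [su, zz, hy, if_false]
        simp only [mul_zero, zero_div, sub_zero]
        exact (Real.exp_pos _).le
  | succ m ih =>
      by_cases hy : y ∈ S
      · have e1 : su q S (m + 1) y = ∑ g ∈ q.support, q g * su q S m (y * g) := by
          simp only [su, hy, if_true]
          rfl
        have e2 : zz q S (m + 1) y = ∑ g ∈ q.support,
            q g * (-Real.log (q g) * su q S m (y * g) + zz q S m (y * g)) := by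
          simp only [zz, hy, if_true]
          rfl
        have e3 : (1 + c) * su q S (m + 1) y - zz q S (m + 1) y / L
            = ∑ g ∈ q.support, q g * ((1 + (c + Real.log (q g) / L)) * su q S m (y * g)
              - zz q S m (y * g) / L) := by
          rw [e1, e2, Finset.mul_sum, Finset.sum_div, ← Finset.sum_sub_distrib]
          refine Finset.sum_congr rfl fun g _ => ?_
          field_simp
          ring
        rw [e3]
        have e4 : ∀ g ∈ q.support, q g * ((1 + (c + Real.log (q g) / L)) * su q S m (y * g)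
              - zz q S m (y * g) / L)
            ≤ Real.exp (c - m * fent q / (2 * L)) * (q g * Real.exp (Real.log (q g) / L)) := by
          intro g _
          have h1 := ih (c + Real.log (q g) / L) (y * g)
          have h2 : Real.exp (c + Real.log (q g) / L - m * fent q / (2 * L))
              = Real.exp (c - m * fent q / (2 * L)) * Real.exp (Real.log (q g) / L) := by
            rw [← Real.exp_add]
            congr 1
            ring
          rw [h2] at h1
          calc q g * ((1 + (c + Real.log (q g) / L)) * su q S m (y * g) - zz q S m (y * g) / L)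
              ≤ q g * (Real.exp (c - m * fent q / (2 * L)) * Real.exp (Real.log (q g) / L)) :=
                mul_le_mul_of_nonneg_left h1 (hq.nonneg g)
            _ = _ := by ring
        calc ∑ g ∈ q.support, q g * ((1 + (c + Real.log (q g) / L)) * su q S m (y * g)
              - zz q S m (y * g) / L)
            ≤ ∑ g ∈ q.support, Real.exp (c - m * fent q / (2 * L))
                * (q g * Real.exp (Real.log (q g) / L)) := Finset.sum_le_sum e4
          _ = Real.exp (c - m * fent q / (2 * L))
                * ∑ g ∈ q.support, q g * Real.exp (Real.log (q g) / L) := by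
              rw [Finset.mul_sum]
          _ ≤ Real.exp (c - m * fent q / (2 * L)) * Real.exp (-(fent q / (2 * L))) :=
              mul_le_mul_of_nonneg_left (f_sumexp hq hL0 hL) (Real.exp_pos _).le
          _ = Real.exp (c - ((m + 1 : ℕ) : ℝ) * fent q / (2 * L)) := by
              rw [← Real.exp_add]
              congr 1
              push_cast
              ring
      · simp only [su, zz, hy, if_false]
        simp only [mul_zero, zero_div, sub_zero]
        exact (Real.exp_pos _).le

theorem drop4b (hq : Prb q) {L : ℝ} (hL0 : 0 < L)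
    (hL : q.sum (fun _ a => a * Real.log a ^ 2) ≤ L * fent q)
    (S : Finset G) {a : G → ℝ} (ha : ∀ y ∈ S, 0 ≤ a y) (h1 : ∑ y ∈ S, a y = 1) (m : ℕ)
    (hε : 0 < ∑ y ∈ S, a y * su q S m y) :
    fent (pw q m) ≤ m * fent q - (∑ y ∈ S, a y * su q S m y) *
      (m * fent q / 2 - Real.log S.card -
        (L + 1) * (-Real.log (∑ y ∈ S, a y * su q S m y))) := by
  have hk : ∀ y ∈ S, a y * fent (pw q m) ≤ a y * (m * fent q) - a y * zz q S m y +
      a y * su q S m y * Real.log S.card + a y * Real.negMulLog (su q S m y) := by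
    intro y hy
    have h2 := drop1 hq S m y
    have h3 := fent_le_card (kd_nonneg hq.nonneg S m y) (kd_card q S m y)
    rw [tot_kd] at h3
    have h4 := mul_le_mul_of_nonneg_left (h2.trans (add_le_add_right h3 _)) (ha y hy)
    linarith
  have hsum := Finset.sum_le_sum hk
  simp only [Finset.sum_add_distrib, Finset.sum_sub_distrib, ← Finset.sum_mul] at hsum
  rw [h1, one_mul, one_mul] at hsum
  have hJ := Real.concaveOn_negMulLog.le_map_sum (t := S) (w := a) (p := fun y => su q S m y) ha h1
    (fun y _ => su_nonneg hq.nonneg S m y)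
  simp only [smul_eq_mul] at hJ
  obtain ⟨e, he⟩ : ∃ e, e = ∑ y ∈ S, a y * su q S m y := ⟨_, rfl⟩
  obtain ⟨z, hz⟩ : ∃ z, z = ∑ y ∈ S, a y * zz q S m y := ⟨_, rfl⟩
  rw [← he] at hε hsum hJ ⊢
  rw [← hz] at hsum
  have hd : ∀ y ∈ S, a y * ((1 + (m * fent q / (2 * L) + Real.log e)) * su q S m y -
      zz q S m y / L) ≤ a y * e := by
    intro y hy
    have h2 := f_drop3 hq hL0 hL S m (m * fent q / (2 * L) + Real.log e) y
    have h3 : m * fent q / (2 * L) + Real.log e - m * fent q / (2 * L) = Real.log e := by ring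
    rw [h3, Real.exp_log hε] at h2
    exact mul_le_mul_of_nonneg_left h2 (ha y hy)
  have hsum2 := Finset.sum_le_sum hd
  rw [← Finset.sum_mul, h1, one_mul] at hsum2
  have h5 : ∑ y ∈ S, a y * ((1 + (m * fent q / (2 * L) + Real.log e)) * su q S m y -
      zz q S m y / L) = (1 + (m * fent q / (2 * L) + Real.log e)) * e - z / L := by
    rw [he, hz, Finset.mul_sum, Finset.sum_div, ← Finset.sum_sub_distrib]
    refine Finset.sum_congr rfl fun y _ => ?_
    ring
  rw [h5] at hsum2
  have h6 : (m * fent q / (2 * L) + Real.log e) * e ≤ z / L := by linarith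
  rw [le_div_iff₀ hL0] at h6
  have h7 : (m * fent q / (2 * L) + Real.log e) * e * L = e * (m * fent q / 2) + e * (L * Real.log e) := by
    field_simp
  rw [h7] at h6
  have h8 : Real.negMulLog e = -(e * Real.log e) := by
    unfold Real.negMulLog
    ring
  rw [h8] at hJ
  linarith


end Pool.Agent.H34.SM
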