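import Pool.Agent.H34.SM.Defs

/-!
S0: the entropy of a sum is at least the sum of the entropies minus `log 2` times the mass. Pointwise: `negMulLog x + negMulLog y ≤ negMulLog (x + y) + (x + y) log 2`: for `x, y > 0` it says
`x log ((x+y)/x) + y log ((x+y)/y) ≤ (x+y) log 2`; by concavity of `negMulLog`: `(negMulLog x + negMulLog y) / 2 ≤ negMulLog ((x+y)/2)` and `negMulLog ((x+y)/2) = (negMulLog (x+y) + (x+y) log 2) / 2`. Sum over the union
of the supports (see RP/H0 `h0_fent`).
-/

namespace Pool.Agent.H34.SM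

open Pool.Agent.H34.LS Pool.Agent.H34.RP

universe u

private theorem s0_pt {x y : ℝ} (hx : 0 ≤ x) (hy : 0 ≤ y) :
    Real.negMulLog x + Real.negMulLog y ≤ Real.negMulLog (x + y) + Real.log 2 * (x + y) := by
  have h := Real.concaveOn_negMulLog.2 (Set.mem_Ici.2 hx) (Set.mem_Ici.2 hy)
    (show (0 : ℝ) ≤ 1 / 2 by norm_num) (show (0 : ℝ) ≤ 1 / 2 by norm_num) (by norm_num)
  rw [smul_eq_mul, smul_eq_mul, smul_eq_mul, smul_eq_mul, ← mul_add, ← mul_add, Real.negMulLog_mul] at h
  have h2 : Real.negMulLog (1 / 2) = 1 / 2 * Real.log 2 := by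
    rw [Real.negMulLog, one_div, Real.log_inv]
    ring
  rw [h2] at h
  linarith

private theorem s0_fent {X : Type u} {p : X →₀ ℝ} {S : Finset X} (h : p.support ⊆ S) :
    fent p = ∑ x ∈ S, Real.negMulLog (p x) :=
  Finsupp.sum_of_support_subset p h _ fun _ _ => Real.negMulLog_zero

theorem fent_add_ge {X : Type u} {p q : X →₀ ℝ} (hp : ∀ x, 0 ≤ p x) (hq : ∀ x, 0 ≤ q x) :
    fent p + fent q ≤ fent (p + q) + Real.log 2 * tot (p + q) := by
  classical
  have ht : tot (p + q) = ∑ x ∈ p.support ∪ q.support, (p + q) x :=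
    Finsupp.sum_of_support_subset (p + q) Finsupp.support_add _ fun _ _ => rfl
  rw [ht, s0_fent (S := p.support ∪ q.support) Finsupp.support_add,
    s0_fent (S := p.support ∪ q.support) Finset.subset_union_left,
    s0_fent (p := q) (S := p.support ∪ q.support) Finset.subset_union_right,
    Finset.mul_sum, ← Finset.sum_add_distrib, ← Finset.sum_add_distrib]
  refine Finset.sum_le_sum fun x _ => ?_
  rw [Finsupp.add_apply]
  exact s0_pt (hp x) (hq x)

end Pool.Agent.H34.SM
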