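import Pool.Agent.H34.SM.S0
import Pool.Agent.H34.SM.S1
import Pool.Agent.H34.SM.D
import Pool.Agent.H34.SM.E
import Pool.Agent.H34.SM.N
import Pool.Agent.H34.RP.H0

/-!
S2: comparison of entropies (see E12 `ent_compare`). `q` from `lift_len`, `Q = (q^n).coeff = pw q.coeff n`, `mom2 S Q ≤ n^2 M` (`mom2_pw`). `P1`, `P2`: the restrictions of `Q` to `|x| ≤ n R` and `|x| > n R` (`Finsupp.filter`,
`Q = P1 + P2`, `Finsupp.filter_pos_add_filter_neg`, or `Finsupp.filter_add_filter_not`). `a = pi`, `b = (theta ∘ pi, mod U)`.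
`fent (map a Q) ≤ fent (map a P1) + fent (map a P2)` (`fent_add_le`, `mapDomain_add`). `fent (map a P1) ≤ fent (map b P1)` (`fent_coarse`; for `x, y` in the support of `P1`: `|x⁻¹ y| ≤ 2 n R ≤ l`).
`fent (map b P1) ≤ fent (map b Q) + log 2` (`fent_add_ge`, `tot = 1`, `fent (map b P2) ≥ 0`: all values lie in `[0, 1]`). `fent (map b Q) ≤ fent (map (theta pi) Q) + log [F : U]` (`fent_index`).
`fent (map a P2) ≤ log b * sum_g (map a P2) g |g| + 2` (`gibbs`; total mass `≤ 1`) and `sum_g (map a P2) g |g| = sum_x P2 x |pi x| ≤ sum_{|x| > n R} Q x |x| ≤ mom2 S Q / (n R) ≤ n M / R`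
(`wordLength (pi '' S) (pi x) ≤ wordLength S x`). `log 2 + 2 ≤ 3`.
-/

namespace Pool.Agent.H34.SM

open Pool.Agent.H34.LS Pool.Agent.H34.RP

universe u v w

private theorem s2_map_nonneg {X : Type u} {Y : Type v} (p : X →₀ ℝ) (hp : ∀ x, 0 ≤ p x)
    (a : X → Y) (y : Y) : 0 ≤ (p.mapDomain a) y := by
  classical
  unfold Finsupp.mapDomain
  rw [Finsupp.sum_apply]
  refine Finset.sum_nonneg fun x _ => ?_
  show 0 ≤ (Finsupp.single (a x) (p x)) y
  rw [Finsupp.single_apply]
  split_ifs
  · exact hp x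
  · exact le_rfl

private theorem s2_tot_map {X : Type u} {Y : Type v} (p : X →₀ ℝ) (a : X → Y) :
    tot (p.mapDomain a) = tot p := by
  unfold tot
  exact Finsupp.sum_mapDomain_index (fun _ => rfl) (fun _ _ _ => rfl)

private theorem s2_fent_nonneg {X : Type u} (p : X →₀ ℝ) (hp : ∀ x, 0 ≤ p x) (h1 : tot p ≤ 1) :
    0 ≤ fent p := by
  unfold fent
  refine Finset.sum_nonneg fun x hx => ?_
  refine Real.negMulLog_nonneg (hp x) (le_trans ?_ h1)
  exact Finset.single_le_sum (f := fun x => p x) (fun y _ => hp y) hx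

private theorem s2_wl {F : Type u} {G : Type v} [Group F] [Group G] {S : Set F}
    (hS : Subgroup.closure S = ⊤) (pi : F →* G) (x : F) :
    wordLength (pi '' S) (pi x) ≤ wordLength S x := by
  obtain ⟨l, hl, hs, hp⟩ := wl_exists hS x
  have h1 := wl_le (S := (pi '' S)) (l := l.map pi) (by
    intro y hy
    rw [List.mem_map] at hy
    obtain ⟨z, hz, rfl⟩ := hy
    rcases hs z hz with h | h
    · exact Or.inl ⟨z, h, rfl⟩
    · exact Or.inr ⟨z⁻¹, h, by rw [map_inv]⟩)
  rw [List.length_map, hl, ← map_list_prod, hp] at h1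
  exact h1

theorem ent_compare2 {F : Type u} {G : Type v} {G' : Type w} [Group F] [Group G] [Group G']
    {S : Set F} (hS : Subgroup.closure S = ⊤) (pi : F →* G) (hpi : Function.Surjective pi)
    (theta : G →* G') {b : ℝ} (hb : 1 ≤ b)
    (hr : ∀ U : Finset G, ∑ g ∈ U, rwt (pi '' S) b g ≤ 1) {p : MonoidAlgebra ℝ G} (hp : PA p)
    {M : ℝ} (hM : mom2 (pi '' S) p.coeff ≤ M) {U : Subgroup F} {l : ℕ} (hUn : U.Normal)
    (hUf : U.FiniteIndex)
    (hU : ∀ x, wordLength S x ≤ l → x ∈ U → theta (pi x) = 1 → pi x = 1) {n R : ℕ} (hn : 1 ≤ n)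
    (hR : 1 ≤ R) (hl : 2 * (n * R) ≤ l) :
    ent (p ^ n) ≤ ent ((mp theta p) ^ n) + Real.log (U.index : ℝ) + 3 +
      Real.log b * (n * M / R) := by
  classical
  obtain ⟨q, hq, hqp, hm⟩ := lift_len hS pi hpi hp
  subst hqp
  have hpa := pa_pow hq n
  have e1 : ent ((mp pi q) ^ n) = fent (Finsupp.mapDomain pi (q ^ n).coeff) := by
    have h1 : (mp pi q) ^ n = mp pi (q ^ n) := (map_pow _ q n).symm
    rw [h1]
    rfl
  have e2 : ent ((mp theta (mp pi q)) ^ n) =
      fent (Finsupp.mapDomain (fun x => theta (pi x)) (q ^ n).coeff) := by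
    have h1 : (mp theta (mp pi q)) ^ n = mp theta (mp pi (q ^ n)) := by
      unfold mp
      rw [map_pow, map_pow]
    rw [h1]
    have h2 : (mp theta (mp pi (q ^ n))).coeff =
        Finsupp.mapDomain (fun x => theta (pi x)) (q ^ n).coeff := by
      change Finsupp.mapDomain theta (Finsupp.mapDomain pi (q ^ n).coeff) = _
      rw [← Finsupp.mapDomain_comp]
      rfl
    unfold ent
    rw [h2]
  rw [e1, e2]
  have hmom : mom2 S (q ^ n).coeff ≤ (n : ℝ) ^ 2 * M := by
    rw [pw_coeff]
    refine (mom2_pw hS (prb_of_pa hq) n).trans ?_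
    exact mul_le_mul_of_nonneg_left (hm.trans hM) (by positivity)
  generalize hQ : (q ^ n).coeff = Q at hpa hmom ⊢
  have hQ0 : ∀ x, 0 ≤ Q x := by rw [← hQ]; exact hpa.1
  have hQ1 : Q.sum (fun _ a => a) = 1 := by rw [← hQ]; exact hpa.2
  have hQt : tot Q = 1 := hQ1
  set P1 : F →₀ ℝ := Q.filter (fun x => wordLength S x ≤ n * R) with hP1
  set P2 : F →₀ ℝ := Q.filter (fun x => ¬ wordLength S x ≤ n * R) with hP2
  have hsplit : P1 + P2 = Q := Finsupp.filter_add_filter_not Q _
  have h10 : ∀ x, 0 ≤ P1 x := by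
    intro x
    rw [hP1, Finsupp.filter_apply]
    split_ifs
    · exact hQ0 x
    · exact le_rfl
  have h20 : ∀ x, 0 ≤ P2 x := by
    intro x
    rw [hP2, Finsupp.filter_apply]
    split_ifs
    · exact le_rfl
    · exact hQ0 x
  have ht2 : tot P2 ≤ 1 := by
    have h := tot_add P1 P2
    rw [hsplit, hQt] at h
    have h' := tot_nonneg h10
    linarith
  -- the two maps
  have hA : Finsupp.mapDomain pi Q = Finsupp.mapDomain pi P1 + Finsupp.mapDomain pi P2 := by
    rw [← Finsupp.mapDomain_add, hsplit]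
  have H1 : fent (Finsupp.mapDomain pi Q) ≤
      fent (Finsupp.mapDomain pi P1) + fent (Finsupp.mapDomain pi P2) := by
    rw [hA]
    exact fent_add_le (s2_map_nonneg P1 h10 _) (s2_map_nonneg P2 h20 _)
  set bb : F → G' × (F ⧸ U) := fun x => (theta (pi x), (QuotientGroup.mk x : F ⧸ U)) with hbb
  have H2 : fent (Finsupp.mapDomain pi P1) ≤ fent (Finsupp.mapDomain bb P1) := by
    refine fent_coarse P1 h10 pi bb ?_
    intro x hx y hy hxy
    rw [hbb] at hxy
    simp only [Prod.mk.injEq] at hxy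
    obtain ⟨h4, h5⟩ := hxy
    have h6 : x⁻¹ * y ∈ U := QuotientGroup.eq.1 h5
    have h7 := wl_mul hS x⁻¹ y
    rw [wl_inv hS] at h7
    have h8 : wordLength S x ≤ n * R := by
      by_contra hc
      rw [Finsupp.mem_support_iff, hP1, Finsupp.filter_apply, if_neg hc] at hx
      exact hx rfl
    have h9 : wordLength S y ≤ n * R := by
      by_contra hc
      rw [Finsupp.mem_support_iff, hP1, Finsupp.filter_apply, if_neg hc] at hy
      exact hy rfl
    have h10 : theta (pi (x⁻¹ * y)) = 1 := by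
      rw [map_mul, map_mul, map_inv, map_inv, h4, inv_mul_cancel]
    have h11 := hU (x⁻¹ * y) (by omega) h6 h10
    rw [map_mul, map_inv, inv_mul_eq_one] at h11
    exact h11
  have hB : Finsupp.mapDomain bb P1 + Finsupp.mapDomain bb P2 = Finsupp.mapDomain bb Q := by
    rw [← Finsupp.mapDomain_add, hsplit]
  have H3 : fent (Finsupp.mapDomain bb P1) ≤ fent (Finsupp.mapDomain bb Q) + Real.log 2 := by
    have h := fent_add_ge (s2_map_nonneg P1 h10 bb) (s2_map_nonneg P2 h20 bb)
    rw [hB, s2_tot_map, hQt, mul_one] at h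
    have h' := s2_fent_nonneg (Finsupp.mapDomain bb P2) (s2_map_nonneg P2 h20 bb)
      (by rw [s2_tot_map]; exact ht2)
    linarith
  have H4 : fent (Finsupp.mapDomain bb Q) ≤
      fent (Finsupp.mapDomain (fun x => theta (pi x)) Q) + Real.log (U.index : ℝ) :=
    (fent_index (Z := F ⧸ U) Q hQ0 hQ1 (fun x => theta (pi x))
      (fun x => (QuotientGroup.mk x : F ⧸ U))).trans (le_of_eq rfl)
  have H5 : fent (Finsupp.mapDomain pi P2) ≤ Real.log b * (n * M / R) + 2 := by
    refine (gibbs hb hr (s2_map_nonneg P2 h20 _) (by rw [s2_tot_map]; exact ht2)).trans ?_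
    have hlog : 0 ≤ Real.log b := Real.log_nonneg hb
    have hsum : (Finsupp.mapDomain pi P2).sum (fun g a => a * (wordLength (pi '' S) g : ℝ)) =
        P2.sum (fun x a => a * (wordLength (pi '' S) (pi x) : ℝ)) :=
      Finsupp.sum_mapDomain_index (fun _ => zero_mul _) (fun _ _ _ => add_mul _ _ _)
    have hnR : (0 : ℝ) < (n : ℝ) * R := by
      have h1 : (1 : ℝ) ≤ n := by exact_mod_cast hn
      have h2 : (1 : ℝ) ≤ R := by exact_mod_cast hR
      positivity
    have hle : P2.sum (fun x a => a * (wordLength (pi '' S) (pi x) : ℝ)) ≤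
        mom2 S Q / ((n : ℝ) * R) := by
      have h1 : P2.sum (fun x a => a * (wordLength (pi '' S) (pi x) : ℝ)) ≤
          ∑ x ∈ Q.support, Q x * (wordLength S x : ℝ) ^ 2 / ((n : ℝ) * R) := by
        have hsub : P2.support ⊆ Q.support := by
          rw [hP2, Finsupp.support_filter]
          exact Finset.filter_subset _ _
        have hs2 : P2.sum (fun x a => a * (wordLength (pi '' S) (pi x) : ℝ)) =
            ∑ x ∈ Q.support, P2 x * (wordLength (pi '' S) (pi x) : ℝ) :=
          Finsupp.sum_of_support_subset P2 hsub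
            (fun x a => a * (wordLength (pi '' S) (pi x) : ℝ)) (fun x _ => zero_mul _)
        rw [hs2]
        refine Finset.sum_le_sum fun x _ => ?_
        by_cases hx : wordLength S x ≤ n * R
        · rw [hP2, Finsupp.filter_apply, if_neg (not_not.2 hx), zero_mul]
          have := hQ0 x
          positivity
        · rw [hP2, Finsupp.filter_apply, if_pos hx]
          have h2 : (wordLength (pi '' S) (pi x) : ℝ) ≤ (wordLength S x : ℝ) := by
            exact_mod_cast s2_wl hS pi x
          have h3 : (n : ℝ) * R ≤ (wordLength S x : ℝ) := by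
            have : n * R ≤ wordLength S x := by omega
            exact_mod_cast this
          rw [mul_div_assoc]
          refine mul_le_mul_of_nonneg_left ?_ (hQ0 x)
          rw [le_div_iff₀ hnR]
          have h4 : (0 : ℝ) ≤ (wordLength S x : ℝ) := Nat.cast_nonneg _
          nlinarith [mul_le_mul_of_nonneg_right h2 hnR.le, mul_le_mul_of_nonneg_left h3 h4]
      refine h1.trans (le_of_eq ?_)
      unfold mom2
      rw [Finsupp.sum, Finset.sum_div]
    have hfin : mom2 S Q / ((n : ℝ) * R) ≤ n * M / R := by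
      rw [div_le_iff₀ hnR]
      refine hmom.trans (le_of_eq ?_)
      have h2 : (R : ℝ) ≠ 0 := by
        have : (1 : ℝ) ≤ R := by exact_mod_cast hR
        positivity
      field_simp
    rw [hsum]
    have := mul_le_mul_of_nonneg_left (hle.trans hfin) hlog
    linarith
  have hl2 : Real.log 2 ≤ 1 := by
    have := Real.log_two_lt_d9
    linarith
  linarith [H1, H2, H3, H4, H5]

end Pool.Agent.H34.SM
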