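import Pool.Agent.H34.SM.S2
import Pool.Agent.H34.SM.W

/-!
S3: transfer of linear entropy to the quotient. `b` from `rwt_sum` for `pi '' S` (finite, generates `G`: `image_closure`). `R ≥ 1` natural with `log b * M / R ≤ e / 4`; `hc` with `e1 = e / (16 R)` and `L` large gives `U, l`; `n = l / (2 R)`
(natural division), so `2 n R ≤ l ≤ 2 R (n + 1) ≤ 4 R n` and `log [F : U] ≤ e n / 4`; `L` so large that `n ≥ N0`, `n ≥ 1`, `3 ≤ e n / 4`. Then `ent (p^n) ≥ e n` (sum of the increments, `ent_one`) and `ent_compare2`: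
`ent ((mp theta p)^n) ≥ e n / 4`; `lin_of` (N) for `(mp theta p).coeff`, `pw_coeff`.
-/

namespace Pool.Agent.H34.SM

open Pool.Agent.H34.LS Pool.Agent.H34.RP

universe u v w

private theorem s3_tel {G : Type v} [Group G] {p : MonoidAlgebra ℝ G} {e : ℝ} :
    ∀ n : ℕ, (∀ m < n, e ≤ ent (p ^ (m + 1)) - ent (p ^ m)) → e * n ≤ ent (p ^ n) := by
  intro n
  induction n with
  | zero =>
    intro _
    rw [pow_zero, ent_one]
    simp
  | succ n ih =>
    intro h
    have h1 := ih fun m hm => h m (Nat.lt_succ_of_lt hm)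
    have h2 := h n (Nat.lt_succ_self n)
    push_cast
    linarith

theorem transfer2 {F : Type u} {G : Type v} {G' : Type w} [Group F] [Group G] [Group G']
    {S : Set F} (hSf : S.Finite) (hS : Subgroup.closure S = ⊤) (pi : F →* G)
    (hpi : Function.Surjective pi) (theta : G →* G')
    (hc : ∀ e : ℝ, 0 < e → ∀ L : ℕ, ∃ (U : Subgroup F) (l : ℕ), U.Normal ∧ U.FiniteIndex ∧ L ≤ l ∧
      Real.log (U.index : ℝ) ≤ e * l ∧
      ∀ x, wordLength S x ≤ l → x ∈ U → theta (pi x) = 1 → pi x = 1)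
    {e M : ℝ} (he : 0 < e) (hM : 0 ≤ M) (N : ℕ) :
    ∃ n : ℕ, ∀ p : MonoidAlgebra ℝ G, PA p → mom2 (pi '' S) p.coeff ≤ M →
      (∀ m < n, e ≤ ent (p ^ (m + 1)) - ent (p ^ m)) →
      ∀ t ≤ N, e / 4 * t ≤ fent (pw (mp theta p).coeff t) := by
  obtain ⟨b, hb, hr⟩ := rwt_sum (hSf.image pi) (image_closure hS pi hpi)
  have hlb : 0 ≤ Real.log b := Real.log_nonneg hb
  obtain ⟨R0, hR0⟩ := exists_nat_ge (4 * (Real.log b * M) / e)
  obtain ⟨n1, hn1⟩ := exists_nat_ge (12 / e)
  set R : ℕ := R0 + 1 with hRdef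
  have hR1 : 1 ≤ R := by omega
  have hRpos : (0 : ℝ) < R := by exact_mod_cast hR1
  set n0 : ℕ := N + n1 + 1 with hn0def
  obtain ⟨U, l, hUn, hUf, hLl, hlog, hU⟩ := hc (e / (16 * R)) (by positivity) (2 * R * n0)
  set n : ℕ := l / (2 * R) with hndef
  have hn0 : n0 ≤ n := by
    rw [hndef, Nat.le_div_iff_mul_le (by omega)]
    calc n0 * (2 * R) = 2 * R * n0 := by ring
      _ ≤ l := hLl
  have hn : 1 ≤ n := by omega
  have hnR : 2 * (n * R) ≤ l := by
    have h1 := Nat.div_mul_le_self l (2 * R)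
    calc 2 * (n * R) = l / (2 * R) * (2 * R) := by rw [← hndef]; ring
      _ ≤ l := h1
  have hl : (l : ℝ) ≤ 4 * R * n := by
    have h1 : l < 2 * R * (n + 1) := by
      have := Nat.lt_mul_div_succ l (show 0 < 2 * R by omega)
      exact this
    have h2 : l ≤ 4 * R * n := by
      have h3 : 2 * R * 1 ≤ 2 * R * n := Nat.mul_le_mul_left _ hn
      nlinarith
    exact_mod_cast h2
  have hnR' : (1 : ℝ) ≤ n := by exact_mod_cast hn
  have hidx : Real.log (U.index : ℝ) ≤ e / 4 * n := by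
    refine hlog.trans ?_
    have h1 : e / (16 * R) * (l : ℝ) ≤ e / (16 * R) * (4 * R * n) :=
      mul_le_mul_of_nonneg_left hl (by positivity)
    refine h1.trans (le_of_eq ?_)
    field_simp
    ring
  have h3 : (3 : ℝ) ≤ e / 4 * n := by
    have h1 : (12 : ℝ) / e ≤ n := by
      refine hn1.trans ?_
      have : n1 ≤ n := by omega
      exact_mod_cast this
    rw [div_le_iff₀ he] at h1
    linarith
  have hbM : Real.log b * (n * M / R) ≤ e / 4 * n := by
    have h1 : 4 * (Real.log b * M) / e ≤ R := by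
      refine hR0.trans ?_
      rw [hRdef]
      push_cast
      linarith
    rw [div_le_iff₀ he] at h1
    have h2 : Real.log b * (n * M / R) = n * (Real.log b * M) / R := by ring
    rw [h2, div_le_iff₀ hRpos]
    nlinarith
  refine ⟨n, fun p hp hmom hinc t ht => ?_⟩
  have h4 := s3_tel n hinc
  have h5 := ent_compare2 hS pi hpi theta hb hr hp hmom hUn hUf hU hn hR1 hnR
  have h6 : e / 4 * n ≤ fent (pw (mp theta p).coeff n) := by
    have h7 : ent ((mp theta p) ^ n) = fent (pw (mp theta p).coeff n) := by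
      rw [← pw_coeff]
      rfl
    rw [← h7]
    linarith
  exact lin_of (prb_of_pa (pa_mp theta hp)) (by omega) hn h6

end Pool.Agent.H34.SM
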