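import Pool.Agent.H34.SM.Defs
import Pool.Agent.H34.LS.E1

/-!
U: image measures. `(mp theta p).coeff = mapDomain theta p.coeff` (`rfl`). `mom2_mp`: `Finsupp.sum_mapDomain_index`, `|theta g| ≤ K |g|`. `mp_symm`: `mapDomain theta P g'⁻¹ = sum_{g : theta g = g'⁻¹} P g`; substitution `g ↦ g⁻¹`
(`Finsupp.mapDomain_comp` with inversion: `P = mapDomain Inv.inv P` by symmetry, so `mapDomain theta P = mapDomain (theta ∘ inv) P = mapDomain (inv ∘ theta) P = mapDomain inv (mapDomain theta P)`).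
-/

namespace Pool.Agent.H34.SM

open Pool.Agent.H34.LS Pool.Agent.H34.RP

universe u v

variable {G : Type u} {G' : Type v} [Group G] [Group G']

theorem mom2_mp {S : Set G} {S' : Set G'} (theta : G →* G') {K : ℕ}
    (hK : ∀ x, wordLength S' (theta x) ≤ K * wordLength S x) {p : MonoidAlgebra ℝ G} (hp : PA p) :
    mom2 S' (mp theta p).coeff ≤ (K : ℝ) ^ 2 * mom2 S p.coeff := by
  have hc : (mp theta p).coeff = Finsupp.mapDomain theta p.coeff := rfl
  have h1 : mom2 S' (mp theta p).coeff =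
      p.coeff.sum (fun x a => a * (wordLength S' (theta x) : ℝ) ^ 2) := by
    unfold mom2
    rw [hc]
    exact Finsupp.sum_mapDomain_index (fun _ => zero_mul _) (fun _ _ _ => add_mul _ _ _)
  rw [h1]
  unfold mom2
  unfold Finsupp.sum
  rw [Finset.mul_sum]
  refine Finset.sum_le_sum fun x _ => ?_
  have h2 : (wordLength S' (theta x) : ℝ) ≤ (K : ℝ) * (wordLength S x : ℝ) := by
    exact_mod_cast hK x
  have h3 : (wordLength S' (theta x) : ℝ) ^ 2 ≤ ((K : ℝ) * (wordLength S x : ℝ)) ^ 2 :=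
    pow_le_pow_left₀ (Nat.cast_nonneg _) h2 2
  calc p.coeff x * (wordLength S' (theta x) : ℝ) ^ 2
      ≤ p.coeff x * ((K : ℝ) * (wordLength S x : ℝ)) ^ 2 := mul_le_mul_of_nonneg_left h3 (hp.1 x)
    _ = (K : ℝ) ^ 2 * (p.coeff x * (wordLength S x : ℝ) ^ 2) := by ring

private lemma smu_inv {X : Type u} [Group X] (P : X →₀ ℝ) (g : X) :
    Finsupp.mapDomain (fun x : X => x⁻¹) P g⁻¹ = P g :=
  Finsupp.mapDomain_apply (f := fun x : X => x⁻¹) inv_injective P g

theorem mp_symm (theta : G →* G') {p : MonoidAlgebra ℝ G} (hs : ∀ g, p.coeff g⁻¹ = p.coeff g)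
    (g : G') : (mp theta p).coeff g⁻¹ = (mp theta p).coeff g := by
  have hc : (mp theta p).coeff = Finsupp.mapDomain theta p.coeff := rfl
  have hP : Finsupp.mapDomain (fun x : G => x⁻¹) p.coeff = p.coeff := by
    ext x
    have h := smu_inv p.coeff x⁻¹
    rw [inv_inv] at h
    rw [h, hs]
  have h1 : Finsupp.mapDomain theta p.coeff =
      Finsupp.mapDomain (fun x : G' => x⁻¹) (Finsupp.mapDomain theta p.coeff) := by
    rw [← Finsupp.mapDomain_comp]
    have h2 : Finsupp.mapDomain (theta ∘ fun x : G => x⁻¹) p.coeff =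
        Finsupp.mapDomain theta p.coeff := by
      rw [Finsupp.mapDomain_comp, hP]
    rw [← h2]
    congr 1
    funext x
    exact map_inv theta x
  rw [hc]
  have h3 := smu_inv (Finsupp.mapDomain theta p.coeff) g
  rw [← h1] at h3
  exact h3

end Pool.Agent.H34.SM
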