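import Pool.Agent.H34.SM.Q
import Pool.Agent.H34.SM.R3
import Pool.Agent.H34.SM.S3
import Pool.Agent.H34.SM.U
import Pool.Agent.H34.SM.N
import Pool.Agent.H34.SM.S1

/-!
Z: measures with finite second moment are Liouville. Suppose `u` is bounded, harmonic, nonconstant. Let `S0` be the generating set of `h.moment`; `|g|_{pi '' S} ≤ K0 |g|_{S0}` (`wl_map` with the identity; `S0` finite), so the second
moment for `pi '' S` is finite. `incr_family` (generating set `pi '' S`): `e`, `M = 2 * tsum`. `K` from `wl_map` (`pi '' S` finite, `S'`, `theta`), `crit` for `(f, S')` with `e / 4` and `K^2 M`: `N`. `transfer2` with `e, M, N`: `n`.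
`incr_family` at `n`: `p`. Then `(mp theta p).coeff` contradicts `crit` (`prb_of_pa`, `pa_mp`, `mp_symm`, `mom2_mp`).
-/

namespace Pool.Agent.H34.SM

open Pool.Agent.H34.LS Pool.Agent.H34.RP

universe u v w

theorem liouville2 {F : Type u} {G : Type v} {G' : Type w} [Group F] [Group G] [Group G']
    {S : Set F} (hSf : S.Finite) (hS : Subgroup.closure S = ⊤) (pi : F →* G)
    (hpi : Function.Surjective pi) (theta : G →* G')
    (hc : ∀ e : ℝ, 0 < e → ∀ L : ℕ, ∃ (U : Subgroup F) (l : ℕ), U.Normal ∧ U.FiniteIndex ∧ L ≤ l ∧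
      Real.log (U.index : ℝ) ≤ e * l ∧
      ∀ x, wordLength S x ≤ l → x ∈ U → theta (pi x) = 1 → pi x = 1)
    (f : G' →* Multiplicative ℤ) {S' : Set G'} (hSf' : S'.Finite)
    (hS' : Subgroup.closure S' = ⊤) (hfin : ∀ n, (window f S' n).Finite)
    (hdiv : Diverges (fun j => Real.log ((window f S' (2 ^ j)).ncard : ℝ) / 4 ^ j))
    {mu : G → ℝ} (h : Sym2 mu) : Liouville mu := by
  intro u0 hu hh x y
  by_contra hne
  obtain ⟨S0, hS0f, hS0, hsum⟩ := h.moment
  have hT : Subgroup.closure (pi '' S) = ⊤ := image_closure hS pi hpi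
  have hTf : (pi '' S).Finite := hSf.image pi
  obtain ⟨K0, hK0⟩ := wl_map hS0f hS0 hT (MonoidHom.id G)
  have hsum' : Summable fun g => mu g * (wordLength (pi '' S) g : ℝ) ^ 2 := by
    refine Summable.of_nonneg_of_le (fun g => mul_nonneg (h.nonneg g) (by positivity)) (fun g => ?_)
      (hsum.mul_left ((K0 : ℝ) ^ 2))
    have h1 : (wordLength (pi '' S) g : ℝ) ≤ (K0 : ℝ) * (wordLength S0 g : ℝ) := by
      have h2 := hK0 g
      rw [MonoidHom.id_apply] at h2
      exact_mod_cast h2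
    have h3 : (wordLength (pi '' S) g : ℝ) ^ 2 ≤ ((K0 : ℝ) * (wordLength S0 g : ℝ)) ^ 2 :=
      pow_le_pow_left₀ (Nat.cast_nonneg _) h1 2
    calc mu g * (wordLength (pi '' S) g : ℝ) ^ 2
        ≤ mu g * ((K0 : ℝ) * (wordLength S0 g : ℝ)) ^ 2 := mul_le_mul_of_nonneg_left h3 (h.nonneg g)
      _ = (K0 : ℝ) ^ 2 * (mu g * (wordLength S0 g : ℝ) ^ 2) := by ring
  obtain ⟨e, he, hfam⟩ := incr_family h.nonneg h.total h.gen h.symm hT hsum' hu hh ⟨x, y, hne⟩
  have hM : 0 ≤ 2 * ∑' g, mu g * (wordLength (pi '' S) g : ℝ) ^ 2 := by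
    refine mul_nonneg (by norm_num) (tsum_nonneg fun g => mul_nonneg (h.nonneg g) (by positivity))
  obtain ⟨K, hK⟩ := wl_map hTf hT hS' theta
  obtain ⟨N, hN⟩ := crit f hSf' hS' hfin hdiv (e := e / 4)
    (M := (K : ℝ) ^ 2 * (2 * ∑' g, mu g * (wordLength (pi '' S) g : ℝ) ^ 2)) (by positivity)
    (mul_nonneg (by positivity) hM)
  obtain ⟨n, hn⟩ := transfer2 hSf hS pi hpi theta hc he hM N
  obtain ⟨p, hp1, hp2, hp3, hp4⟩ := hfam n
  refine hN (mp theta p).coeff (prb_of_pa (pa_mp theta hp1)) (mp_symm theta hp2) ?_ (hn p hp1 hp3 hp4)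
  exact (mom2_mp theta hK hp1).trans (mul_le_mul_of_nonneg_left hp3 (by positivity))

end Pool.Agent.H34.SM
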